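import Pool.Agent.Y643.TC.Main

/-!
# The asymptotic form of the lower bound
-/

set_option autoImplicit false

namespace Pool.Agent.Y643.TC

theorem poly_le_exp (C γ : ℝ) (hγ : 0 < γ) (R : ℕ) :
    ∃ M₀ : ℕ, ∀ M : ℕ, M₀ ≤ M → C * (M : ℝ) ^ R ≤ Real.exp (γ * M) := by
  obtain ⟨M₀, hM₀⟩ := exists_nat_ge (C * (R + 1).factorial / γ ^ (R + 1))
  refine ⟨M₀, fun M hM => ?_⟩
  have h1 := Real.pow_div_factorial_le_exp (γ * M) (by positivity) (R + 1)
  refine le_trans ?_ h1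
  have h2 : C * (R + 1).factorial / γ ^ (R + 1) ≤ M := hM₀.trans (by exact_mod_cast hM)
  rw [div_le_iff₀ (by positivity)] at h2
  rw [le_div_iff₀ (by positivity)]
  have h3 : (0 : ℝ) ≤ (M : ℝ) ^ R := by positivity
  calc C * (M : ℝ) ^ R * ((R + 1).factorial : ℝ) = (C * (R + 1).factorial) * (M : ℝ) ^ R := by ring
    _ ≤ (M * γ ^ (R + 1)) * (M : ℝ) ^ R := by gcongr
    _ = (γ * M) ^ (R + 1) := by ring

theorem lower_bound (r : ℝ) (hr : 1 ≤ r) (R : ℕ) (hR : 1000 * r ^ 2 ≤ R) :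
    ∃ c : ℝ, 0 < c ∧ ∃ M₀ : ℕ, ∀ M : ℕ, M₀ ≤ M → ∀ l : List ((Vtx R M → ℝ) → ℝ), Prog l →
      ∀ f ∈ l, Approx (conorm R M) r f → (2 : ℝ) ^ (c * M) ≤ l.length := by
  have hRR : (1000 : ℝ) ≤ R := by nlinarith only [hr, hR]
  have hR0 : (0 : ℝ) < R := by linarith
  have hRn : 0 < R := by exact_mod_cast hR0
  obtain ⟨ε, hε⟩ : ∃ ε : ℝ, ε = 1 / (576 * (R : ℝ) ^ 2) := ⟨_, rfl⟩
  have hεpos : 0 < ε := by rw [hε]; positivity
  obtain ⟨k, hk⟩ := pow_unbounded_of_one_lt (1152 * (R : ℝ) ^ 2 * r) (show (1 : ℝ) < 2 by norm_num)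
  obtain ⟨K, hK⟩ : ∃ K : ℝ, K = ((5 ^ k : ℕ) : ℝ) := ⟨_, rfl⟩
  have hKpos : 0 < K := by rw [hK]; positivity
  obtain ⟨δ, hδ⟩ : ∃ δ : ℝ, δ = min (8 * ε) (r / (K * R)) := ⟨_, rfl⟩
  have hδpos : 0 < δ := by
    rw [hδ]
    exact lt_min (by positivity) (by positivity)
  have hδε : δ ≤ 8 * ε := by rw [hδ]; exact min_le_left _ _
  have hδK : K * R * δ ≤ r := by
    have : δ ≤ r / (K * R) := by rw [hδ]; exact min_le_right _ _
    rw [le_div_iff₀ (by positivity)] at this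
    linarith
  obtain ⟨a, ha⟩ : ∃ a : ℝ, a = (1 / 2) ^ R / (4 * K * R) := ⟨_, rfl⟩
  have hapos : 0 < a := by rw [ha]; positivity
  obtain ⟨g, hg⟩ : ∃ g : ℝ, g = min a (δ / 8) := ⟨_, rfl⟩
  have hgpos : 0 < g := by rw [hg]; exact lt_min hapos (by positivity)
  have hga : g ≤ a := by rw [hg]; exact min_le_left _ _
  have hgδ : g ≤ δ / 8 := by rw [hg]; exact min_le_right _ _
  obtain ⟨η, hη⟩ : ∃ η : ℝ, η = g / (2 * (2 * K + 1)) := ⟨_, rfl⟩
  have hηpos : 0 < η := by rw [hη]; positivity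
  obtain ⟨M₁, hM₁⟩ := poly_le_exp (4 * 2 ^ R) (η / 2) (by positivity) R
  obtain ⟨M₂, hM₂⟩ := poly_le_exp (5 * K * R * 2 ^ R) η hηpos R
  refine ⟨η / 2, by positivity, max (max M₁ M₂) (576 * R ^ 2 + 1), fun M hM l hl f hfl hf => ?_⟩
  have hM1 : M₁ ≤ M := le_trans (le_trans (le_max_left _ _) (le_max_left _ _)) hM
  have hM2 : M₂ ≤ M := le_trans (le_trans (le_max_right _ _) (le_max_left _ _)) hM
  have hM3 : 576 * R ^ 2 + 1 ≤ M := le_trans (le_max_right _ _) hM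
  have hMpos : 0 < M := by omega
  have hMR : (576 * (R : ℝ) ^ 2 + 1) ≤ M := by exact_mod_cast hM3
  have hM0 : (0 : ℝ) < M := by exact_mod_cast hMpos
  have hM1' : (1 : ℝ) ≤ M := by exact_mod_cast hMpos
  have hn : nn R M = 2 ^ R * (M : ℝ) ^ R := by
    unfold nn
    rw [mul_pow]
  have hn1 : 2 * (M : ℝ) ≤ nn R M := by
    unfold nn
    exact le_self_pow₀ (by linarith) (by omega)
  have hnpos := nn_pos (R := R) hMpos
  by_contra hcon
  push Not at hcon
  obtain ⟨L, hL1, hL2, hL3, hL4⟩ := exists_base hl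
  -- the scale of the pieces
  have hεn : 2 ≤ ε * nn R M := by
    have : ε * (2 * (576 * (R : ℝ) ^ 2 + 1)) ≤ ε * nn R M := by gcongr; linarith
    refine le_trans ?_ this
    rw [hε, one_div, inv_mul_eq_div, le_div_iff₀ (by positivity)]
    linarith
  obtain ⟨θ, hθ⟩ : ∃ θ : ℕ, θ = ⌊ε * nn R M⌋₊ := ⟨_, rfl⟩
  have hθ1 : (θ : ℝ) ≤ ε * nn R M := by
    rw [hθ]
    exact Nat.floor_le (by linarith)
  have hθ2 : ε * nn R M < θ + 1 := by
    rw [hθ]
    exact Nat.lt_floor_add_one _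
  have hθ3 : 1 ≤ θ := by
    have : (1 : ℝ) < (θ : ℝ) + 1 := by linarith
    have : (0 : ℝ) < θ := by linarith
    exact_mod_cast this
  have hθ4 : ε * nn R M / 2 ≤ θ := by linarith
  have hθ5 : r * nn R M ≤ θ * 2 ^ k := by
    have h1 : (ε * nn R M / 2) * (1152 * (R : ℝ) ^ 2 * r) ≤ θ * 2 ^ k := by
      gcongr
    refine le_trans (le_of_eq ?_) h1
    rw [hε]
    field_simp
    norm_num
  obtain ⟨L', hL'⟩ : ∃ L' : ℕ, L' = ⌊M / (4 * K * R)⌋₊ := ⟨_, rfl⟩
  have hL'1 : (R : ℝ) * L' ≤ 1 / (4 * ((5 ^ k : ℕ) : ℝ)) * M := by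
    have : (L' : ℝ) ≤ M / (4 * K * R) := by
      rw [hL']
      exact Nat.floor_le (by positivity)
    calc (R : ℝ) * L' ≤ R * (M / (4 * K * R)) := by gcongr
      _ = 1 / (4 * ((5 ^ k : ℕ) : ℝ)) * M := by
        rw [← hK]
        field_simp
  have hL'2 : M / (4 * K * R) < (L' : ℝ) + 1 := by
    rw [hL']
    exact Nat.lt_floor_add_one _
  have key := count_bound hMpos r ε δ hr hR (by rw [hε]; field_simp; norm_num) hδpos hδε L f
    (hL2 f hfl) (hL4 f (hL2 f hfl)) hf θ k hθ3 hθ1 hθ5 (by rw [← hK]; exact hδK) L' hL'1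
  rw [← hK] at key
  -- upper bounds for the factors
  have hexp2 : (2 : ℝ) ^ (η / 2 * M) ≤ Real.exp (η / 2 * M) := by
    rw [Real.rpow_def_of_pos (by norm_num)]
    apply Real.exp_le_exp.2
    have : Real.log 2 ≤ 1 := by
      have := Real.log_two_lt_d9
      linarith
    have h0 : 0 ≤ η / 2 * M := by positivity
    exact mul_le_of_le_one_left h0 this
  have e1 : 4 * nn R M ≤ Real.exp (η / 2 * M) := by
    have := hM₁ M hM1
    rw [hn]
    linarith
  have e2 : (L.card : ℝ) + 1 ≤ Real.exp (η * M) := by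
    have h1 : (L.card : ℝ) ≤ nn R M + 3 * l.length := by
      rw [← card_vtx]
      exact_mod_cast hL3
    have h2 : Real.exp (η * M) = Real.exp (η / 2 * M) * Real.exp (η / 2 * M) := by
      rw [← Real.exp_add]
      congr 1
      ring
    have h3 : (l.length : ℝ) ≤ Real.exp (η / 2 * M) := hcon.le.trans hexp2
    have h4 : 4 ≤ Real.exp (η / 2 * M) := by linarith only [e1, hn1, hM1']
    rw [h2]
    have h5 : (L.card : ℝ) + 1 ≤ 4 * Real.exp (η / 2 * M) := by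
      linarith only [e1, hn1, hM1', h1, h3, h4]
    exact h5.trans (mul_le_mul_of_nonneg_right h4 (Real.exp_pos _).le)
  have e3 : K * R * nn R M * (1 - (1 / 2) ^ R) ^ L' + 2 * K * R * Real.exp (-(δ * M) / 8) ≤
      Real.exp (η * M) * Real.exp (-(g * M)) := by
    have h1 : ((1 : ℝ) - (1 / 2) ^ R) ^ L' ≤ 3 * Real.exp (-(g * M)) := by
      have h2 : (1 : ℝ) - (1 / 2) ^ R ≤ Real.exp (-((1 / 2) ^ R)) := Real.one_sub_le_exp_neg _
      have h2' : (0 : ℝ) ≤ 1 - (1 / 2) ^ R := by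
        have : ((1 : ℝ) / 2) ^ R ≤ 1 := pow_le_one₀ (by norm_num) (by norm_num)
        linarith
      have h3 : ((1 : ℝ) - (1 / 2) ^ R) ^ L' ≤ Real.exp (-((1 / 2) ^ R)) ^ L' :=
        pow_le_pow_left₀ h2' h2 _
      refine h3.trans ?_
      rw [← Real.exp_nat_mul]
      have h4 : (L' : ℝ) * -((1 / 2) ^ R) ≤ 1 + -(g * M) := by
        have h5 : ((1 : ℝ) / 2) ^ R ≤ 1 := pow_le_one₀ (by norm_num) (by norm_num)
        have h6 : (0 : ℝ) < (1 / 2) ^ R := by positivity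
        have h7 : a * M ≤ (L' : ℝ) * (1 / 2) ^ R + (1 / 2) ^ R := by
          have h8 : (1 / 2) ^ R * (M / (4 * K * R)) ≤ (1 / 2) ^ R * ((L' : ℝ) + 1) := by
            gcongr
          have h9 : a * M = (1 / 2) ^ R * (M / (4 * K * R)) := by
            rw [ha]
            ring
          rw [h9]
          linarith
        have h10 : g * M ≤ a * M := by gcongr
        linarith
      refine (Real.exp_le_exp.2 h4).trans ?_
      rw [Real.exp_add]
      have h5 : Real.exp 1 ≤ 3 := by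
        have := Real.exp_one_lt_d9
        linarith
      have h6 := Real.exp_pos (-(g * M))
      gcongr
    have h2 : Real.exp (-(δ * M) / 8) ≤ Real.exp (-(g * M)) := by
      apply Real.exp_le_exp.2
      have : g * M ≤ δ / 8 * M := by gcongr
      linarith
    have h3 : 5 * K * R * nn R M ≤ Real.exp (η * M) := by
      have := hM₂ M hM2
      rw [hn]
      linarith
    have h4 := Real.exp_pos (-(g * M))
    calc K * R * nn R M * (1 - (1 / 2) ^ R) ^ L' + 2 * K * R * Real.exp (-(δ * M) / 8)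
        ≤ K * R * nn R M * (3 * Real.exp (-(g * M))) + 2 * K * R * Real.exp (-(g * M)) := by
          gcongr
      _ = K * R * (3 * nn R M + 2) * Real.exp (-(g * M)) := by ring
      _ ≤ K * R * (5 * nn R M) * Real.exp (-(g * M)) := by
          gcongr
          linarith
      _ = 5 * K * R * nn R M * Real.exp (-(g * M)) := by ring
      _ ≤ _ := by gcongr
  have h0 : (0 : ℝ) ≤ (L.card : ℝ) + 1 := by positivity
  have e4 : ((L.card : ℝ) + 1) ^ (2 * 5 ^ k) ≤ Real.exp (2 * K * (η * M)) := by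
    refine (pow_le_pow_left₀ h0 e2 _).trans (le_of_eq ?_)
    rw [← Real.exp_nat_mul, hK]
    push_cast
    ring_nf
  have e5 : (1 : ℝ) ≤ Real.exp (2 * K * (η * M)) * (Real.exp (η * M) * Real.exp (-(g * M))) := by
    refine key.trans ?_
    have : (0 : ℝ) ≤ (1 - (1 / 2) ^ R) ^ L' := by
      apply pow_nonneg
      have : ((1 : ℝ) / 2) ^ R ≤ 1 := pow_le_one₀ (by norm_num) (by norm_num)
      linarith
    gcongr
  rw [← Real.exp_add, ← Real.exp_add] at e5
  have e6 : 2 * K * (η * M) + (η * M + -(g * M)) = -(g / 2 * M) := by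
    rw [hη]
    field_simp
    ring
  rw [e6] at e5
  have e7 : Real.exp (-(g / 2 * M)) < 1 := by
    rw [Real.exp_lt_one_iff]
    have : 0 < g / 2 * M := by positivity
    linarith
  linarith

end Pool.Agent.Y643.TC
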