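import Pool.Agent.Y643.TC.Geo

/-!
# The combinatorial core: few assignments are served by a fixed family of certified edge sets
-/

set_option autoImplicit false

namespace Pool.Agent.Y643.TC

open Finset

variable {R M K : ℕ}

theorem card_le_image_add {α β : Type*} [DecidableEq α] [DecidableEq β] (I : Finset α)
    (f : α → β) :
    I.card ≤ (I.image f).card + (I.offDiag.filter fun p => f p.1 = f p.2).card := by
  induction I using Finset.induction_on with
  | empty => simp
  | insert a I ha ih =>
    rw [card_insert_of_notMem ha, image_insert]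
    by_cases h : f a ∈ I.image f
    · rw [mem_image] at h
      obtain ⟨b, hb, hab⟩ := h
      have h1 : (I.offDiag.filter fun p => f p.1 = f p.2).card + 1 ≤
          ((insert a I).offDiag.filter fun p => f p.1 = f p.2).card := by
        rw [← card_insert_of_notMem (a := (a, b)) (s := I.offDiag.filter fun p => f p.1 = f p.2)]
        · refine card_le_card ?_
          intro p hp
          rw [mem_insert] at hp
          rcases hp with rfl | hp
          · rw [mem_filter, mem_offDiag]
            refine ⟨⟨mem_insert_self _ _, mem_insert_of_mem hb, ?_⟩, hab.symm⟩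
            intro hh
            have hh' : a = b := hh
            exact ha (hh' ▸ hb)
          · rw [mem_filter, mem_offDiag] at hp ⊢
            exact ⟨⟨mem_insert_of_mem hp.1.1, mem_insert_of_mem hp.1.2.1, hp.1.2.2⟩, hp.2⟩
        · simp [ha]
      have h2 : (I.image f).card ≤ (insert (f a) (I.image f)).card :=
        card_le_card (subset_insert _ _)
      omega
    · rw [card_insert_of_notMem h]
      have h1 : (I.offDiag.filter fun p => f p.1 = f p.2).card ≤
          ((insert a I).offDiag.filter fun p => f p.1 = f p.2).card := by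
        refine card_le_card ?_
        intro p hp
        rw [mem_filter, mem_offDiag] at hp ⊢
        exact ⟨⟨mem_insert_of_mem hp.1.1, mem_insert_of_mem hp.1.2.1, hp.1.2.2⟩, hp.2⟩
      omega

open Classical in
/-- the number of vertices of `D` whose variable number `ρ` is `u` -/
noncomputable def mm (D : Finset (Vtx R M)) (ρ : Fin R) (u : Fin M) : ℝ :=
  ((D.filter fun v => (v ρ).1 = u).card : ℝ)

theorem mm_nonneg (D : Finset (Vtx R M)) (ρ : Fin R) (u : Fin M) : 0 ≤ mm D ρ u := by
  unfold mm; positivity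

open Classical in
theorem sum_mm (D : Finset (Vtx R M)) (ρ : Fin R) : ∑ u, mm D ρ u = D.card := by
  unfold mm
  rw [Finset.card_eq_sum_card_fiberwise (f := fun v => (v ρ).1) (t := univ)
      (fun _ _ => Finset.mem_coe.2 (mem_univ _))]
  push_cast
  rfl

open Classical in
theorem mm_split (D : Finset (Vtx R M)) (ρ : Fin R) (u : Fin M) :
    mm D ρ u = ((D.filter fun v => v ρ = (u, false)).card : ℝ) +
      ((D.filter fun v => v ρ = (u, true)).card : ℝ) := by
  unfold mm
  rw [← Nat.cast_add, ← Finset.card_union_of_disjoint]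
  · congr 2
    ext v
    simp only [mem_filter, mem_union]
    constructor
    · rintro ⟨h1, h2⟩
      rcases h : (v ρ).2 with _ | _
      · left
        exact ⟨h1, Prod.ext h2 h⟩
      · right
        exact ⟨h1, Prod.ext h2 h⟩
    · rintro (⟨h1, h2⟩ | ⟨h1, h2⟩)
      · exact ⟨h1, by rw [h2]⟩
      · exact ⟨h1, by rw [h2]⟩
  · rw [Finset.disjoint_left]
    intro v h1 h2
    rw [mem_filter] at h1 h2
    rw [h1.2] at h2
    simp at h2

open Classical in
theorem core_count (hM : 0 < M) (r ε : ℝ) (hr : 1 ≤ r)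
    (hε' : 576 * ε * (R : ℝ) ^ 2 ≤ 1) (hε : 0 ≤ ε)
    (D : Fin K → Fin R → Finset (Vtx R M))
    (h1 : ∀ j ρ, ((D j ρ).card : ℝ) ≤ 8 * ε * nn R M)
    (h2 : ∑ j, ((univ.biUnion fun ρ => D j ρ).card : ℝ) ≤ 9 * r * nn R M)
    (h4 : ∀ ρ u, (nn R M / (2 * M)) ^ 2 / 2 ≤
      ∑ j, (((D j ρ).filter fun v => v ρ = (u, false)).card : ℝ) *
        (((D j ρ).filter fun v => v ρ = (u, true)).card : ℝ)) :
    (R : ℝ) ≤ 960 * r ^ 2 := by
  have hMR : (0 : ℝ) < M := by exact_mod_cast hM
  have hn := nn_pos (R := R) hM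
  obtain ⟨N, hN⟩ : ∃ N : ℝ, N = nn R M / (2 * M) := ⟨_, rfl⟩
  have hNpos : 0 < N := by rw [hN]; positivity
  have hnN : nn R M = 2 * M * N := by rw [hN]; field_simp
  rw [hnN] at h1 h2
  rw [← hN] at h4
  obtain ⟨Q, hQ⟩ : ∃ Q : ℝ, Q = 36 * r := ⟨_, rfl⟩
  have hQpos : 0 < Q := by rw [hQ]; linarith
  obtain ⟨good, hgood⟩ : ∃ good : Fin R → Fin M → Prop,
      ∀ ρ u, good ρ u ↔ ∑ j, mm (D j ρ) ρ u ≤ 2 * N * Q := ⟨_, fun _ _ => Iff.rfl⟩
  -- owners
  have hown : ∀ ρ u, ∃ j, good ρ u → N / Q ≤ mm (D j ρ) ρ u := by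
    intro ρ u
    have hpos : 0 < ∑ j, (((D j ρ).filter fun v => v ρ = (u, false)).card : ℝ) *
        (((D j ρ).filter fun v => v ρ = (u, true)).card : ℝ) :=
      lt_of_lt_of_le (by positivity) (h4 ρ u)
    obtain ⟨j0, -, hj0⟩ := Finset.exists_lt_of_sum_lt (s := univ)
      (f := fun _ : Fin K => (0 : ℝ)) (g := fun j =>
        (((D j ρ).filter fun v => v ρ = (u, false)).card : ℝ) *
        (((D j ρ).filter fun v => v ρ = (u, true)).card : ℝ)) (by simpa using hpos)
    by_cases hg : good ρ u
    · by_contra hcon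
      push Not at hcon
      have hall : ∀ j, mm (D j ρ) ρ u < N / Q := fun j => (hcon j).2
      rw [hgood] at hg
      have e1 : ∑ j, mm (D j ρ) ρ u ^ 2 < ∑ j, mm (D j ρ) ρ u * (N / Q) := by
        refine Finset.sum_lt_sum (fun j _ => ?_) ⟨j0, mem_univ _, ?_⟩
        · rw [pow_two]
          exact mul_le_mul_of_nonneg_left (hall j).le (mm_nonneg _ _ _)
        · rw [pow_two]
          refine mul_lt_mul_of_pos_left (hall j0) ?_
          rw [mm_split]
          by_contra hh
          push Not at hh
          have a1 : (0 : ℝ) ≤ (((D j0 ρ).filter fun v => v ρ = (u, false)).card : ℝ) :=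
            Nat.cast_nonneg _
          have a2 : (0 : ℝ) ≤ (((D j0 ρ).filter fun v => v ρ = (u, true)).card : ℝ) :=
            Nat.cast_nonneg _
          have a3 : (((D j0 ρ).filter fun v => v ρ = (u, false)).card : ℝ) = 0 := by linarith
          rw [a3] at hj0
          simp at hj0
      have e2 : ∑ j, (((D j ρ).filter fun v => v ρ = (u, false)).card : ℝ) *
          (((D j ρ).filter fun v => v ρ = (u, true)).card : ℝ) ≤
          ∑ j, mm (D j ρ) ρ u ^ 2 / 4 := by
        refine Finset.sum_le_sum fun j _ => ?_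
        rw [mm_split]
        nlinarith [sq_nonneg ((((D j ρ).filter fun v => v ρ = (u, false)).card : ℝ) -
          (((D j ρ).filter fun v => v ρ = (u, true)).card : ℝ))]
      rw [← Finset.sum_div] at e2
      rw [← Finset.sum_mul] at e1
      have e3 : (∑ j, mm (D j ρ) ρ u) * (N / Q) ≤ 2 * N * Q * (N / Q) := by gcongr
      have e4 : 2 * N * Q * (N / Q) = 2 * N ^ 2 := by field_simp
      have := h4 ρ u
      linarith
    · exact ⟨j0, fun h => absurd h hg⟩
  choose o ho using hown
  -- the sets of variables of an owner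
  have ha : ∀ j ρ, ((univ.filter fun u => good ρ u ∧ o ρ u = j).card : ℝ) ≤ 16 * ε * Q * M := by
    intro j ρ
    have e1 : ((univ.filter fun u => good ρ u ∧ o ρ u = j).card : ℝ) * (N / Q) ≤
        8 * ε * (2 * M * N) := by
      refine le_trans ?_ (h1 j ρ)
      rw [← sum_mm (D j ρ) ρ, ← nsmul_eq_mul]
      refine le_trans ?_ (Finset.sum_le_sum_of_subset_of_nonneg
        (Finset.subset_univ (univ.filter fun u => good ρ u ∧ o ρ u = j))
        (fun u _ _ => mm_nonneg _ _ _))
      refine Finset.card_nsmul_le_sum _ _ _ ?_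
      intro u hu
      rw [mem_filter] at hu
      have := ho ρ u hu.2.1
      rwa [hu.2.2] at this
    generalize ((univ.filter fun u => good ρ u ∧ o ρ u = j).card : ℝ) = z at e1 ⊢
    have e2 : z * (N / Q) * (Q / N) ≤
        8 * ε * (2 * M * N) * (Q / N) := mul_le_mul_of_nonneg_right e1 (by positivity)
    have e3 : z * (N / Q) * (Q / N) = z := by field_simp
    have e4 : 8 * ε * (2 * M * N) * (Q / N) = 16 * ε * Q * M := by field_simp; ring
    linarith
  have hDs : ∀ ρ, ∑ j, ((D j ρ).card : ℝ) ≤ 9 * r * (2 * M * N) := by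
    intro ρ
    refine le_trans (Finset.sum_le_sum fun j _ => ?_) h2
    refine Nat.cast_le.2 (Finset.card_le_card ?_)
    exact Finset.subset_biUnion_of_mem (fun ρ => D j ρ) (mem_univ ρ)
  -- many good variables
  have hgc : ∀ ρ, 3 * (M : ℝ) / 4 ≤ ((univ.filter fun u => good ρ u).card : ℝ) := by
    intro ρ
    have e1 : ((univ.filter fun u => ¬ good ρ u).card : ℝ) * (2 * N * Q) ≤
        9 * r * (2 * M * N) := by
      refine le_trans ?_ (hDs ρ)
      have : ∑ j, ((D j ρ).card : ℝ) = ∑ u, ∑ j, mm (D j ρ) ρ u := by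
        rw [Finset.sum_comm]
        exact Finset.sum_congr rfl fun j _ => (sum_mm _ _).symm
      rw [this, ← nsmul_eq_mul]
      refine le_trans ?_ (Finset.sum_le_sum_of_subset_of_nonneg
        (Finset.subset_univ (univ.filter fun u => ¬ good ρ u))
        (fun u _ _ => Finset.sum_nonneg fun j _ => mm_nonneg _ _ _))
      refine Finset.card_nsmul_le_sum _ _ _ ?_
      intro u hu
      rw [mem_filter, hgood] at hu
      exact (not_le.1 hu.2).le
    have e2 : ((univ.filter fun u => ¬ good ρ u).card : ℝ) ≤ M / 4 := by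
      have e5 : ((univ.filter fun u => ¬ good ρ u).card : ℝ) * (2 * N * Q) ≤
          (M / 4) * (2 * N * Q) := by
        refine e1.trans (le_of_eq ?_)
        rw [hQ]
        ring
      exact le_of_mul_le_mul_right e5 (by positivity)
    have e3 : ((univ.filter fun u => good ρ u).card : ℝ) +
        ((univ.filter fun u => ¬ good ρ u).card : ℝ) = M := by
      have := Finset.card_filter_add_card_filter_not (s := (univ : Finset (Fin M)))
        (fun u => good ρ u)
      rw [Finset.card_univ, Fintype.card_fin] at this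
      exact_mod_cast this
    linarith
  -- the incidence count
  obtain ⟨I, hI⟩ : ∃ I : Vtx R M → Finset (Fin R), ∀ v, I v =
      univ.filter fun ρ => good ρ (v ρ).1 ∧ v ∈ D (o ρ (v ρ).1) ρ := ⟨_, fun _ => rfl⟩
  have hAlow : (R : ℝ) * (3 * M / 4 * (N / Q)) ≤ ∑ v, ((I v).card : ℝ) := by
    have e1 : ∑ v, ((I v).card : ℝ) = ∑ ρ : Fin R, ((univ.filter fun v : Vtx R M =>
        good ρ (v ρ).1 ∧ v ∈ D (o ρ (v ρ).1) ρ).card : ℝ) := by
      simp only [hI, Finset.card_filter]
      push_cast
      rw [Finset.sum_comm]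
    rw [e1]
    have e2 : ∀ ρ : Fin R, 3 * M / 4 * (N / Q) ≤ ((univ.filter fun v : Vtx R M =>
        good ρ (v ρ).1 ∧ v ∈ D (o ρ (v ρ).1) ρ).card : ℝ) := by
      intro ρ
      have e3 : ((univ.filter fun v : Vtx R M =>
          good ρ (v ρ).1 ∧ v ∈ D (o ρ (v ρ).1) ρ).card : ℝ) =
          ∑ u, (if good ρ u then mm (D (o ρ u) ρ) ρ u else 0) := by
        rw [Finset.card_eq_sum_card_fiberwise (f := fun v => (v ρ).1) (t := univ)
          (fun _ _ => Finset.mem_coe.2 (mem_univ _))]
        push_cast
        refine Finset.sum_congr rfl fun u _ => ?_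
        split_ifs with hg
        · unfold mm
          congr 2
          ext v
          simp only [mem_filter, mem_univ, true_and]
          constructor
          · rintro ⟨⟨a, b⟩, rfl⟩
            exact ⟨b, rfl⟩
          · rintro ⟨a, rfl⟩
            exact ⟨⟨hg, a⟩, rfl⟩
        · rw [Nat.cast_eq_zero, Finset.card_eq_zero, Finset.filter_eq_empty_iff]
          intro v hv hvu
          rw [mem_filter] at hv
          rw [hvu] at hv
          exact hg hv.2.1
      rw [e3]
      calc 3 * M / 4 * (N / Q) ≤ ((univ.filter fun u => good ρ u).card : ℝ) * (N / Q) := by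
            have := hgc ρ
            gcongr
        _ = ∑ u ∈ univ.filter (fun u => good ρ u), (N / Q) := by
            rw [Finset.sum_const, nsmul_eq_mul]
        _ = ∑ u, (if good ρ u then (N / Q) else 0) := by rw [Finset.sum_filter]
        _ ≤ ∑ u, (if good ρ u then mm (D (o ρ u) ρ) ρ u else 0) := by
            refine Finset.sum_le_sum fun u _ => ?_
            split_ifs with hg
            · exact ho ρ u hg
            · exact le_rfl
    calc (R : ℝ) * (3 * M / 4 * (N / Q)) = ∑ _ρ : Fin R, (3 * M / 4 * (N / Q)) := by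
          rw [Finset.sum_const, Finset.card_univ, Fintype.card_fin, nsmul_eq_mul]
      _ ≤ _ := Finset.sum_le_sum fun ρ _ => e2 ρ
  -- the upper bound
  have hup1 : ∀ v : Vtx R M, ((I v).card : ℝ) ≤
      ((univ.filter fun j => v ∈ univ.biUnion fun ρ => D j ρ).card : ℝ) +
      (((univ : Finset (Fin R)).offDiag.filter fun p =>
        (good p.1 (v p.1).1 ∧ good p.2 (v p.2).1) ∧
          o p.1 (v p.1).1 = o p.2 (v p.2).1).card : ℝ) := by
    intro v
    have := card_le_image_add (I v) (fun ρ => o ρ (v ρ).1)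
    rw [← Nat.cast_add]
    refine Nat.cast_le.2 (this.trans (add_le_add (Finset.card_le_card ?_)
      (Finset.card_le_card ?_)))
    · intro j hj
      rw [mem_image] at hj
      obtain ⟨ρ, hρ, rfl⟩ := hj
      rw [hI, mem_filter] at hρ
      rw [mem_filter]
      refine ⟨mem_univ _, ?_⟩
      rw [mem_biUnion]
      exact ⟨ρ, mem_univ _, hρ.2.2⟩
    · rintro ⟨ρ, ρ'⟩ hp
      rw [mem_filter, mem_offDiag] at hp
      rw [mem_filter, mem_offDiag]
      obtain ⟨⟨a, b, c⟩, d⟩ := hp
      rw [hI, mem_filter] at a b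
      exact ⟨⟨mem_univ _, mem_univ _, c⟩, ⟨a.2.1, b.2.1⟩, d⟩
  have hupA : ∑ v : Vtx R M, ((univ.filter fun j => v ∈ univ.biUnion fun ρ => D j ρ).card : ℝ) ≤
      9 * r * (2 * M * N) := by
    refine le_trans (le_of_eq ?_) h2
    have : ∀ j, ((univ.biUnion fun ρ => D j ρ).card : ℝ) =
        ∑ v : Vtx R M, if v ∈ univ.biUnion (fun ρ => D j ρ) then (1 : ℝ) else 0 := by
      intro j
      rw [Finset.sum_ite_mem]
      simp
    simp only [this]
    rw [Finset.sum_comm]
    refine Finset.sum_congr rfl fun v _ => ?_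
    rw [Finset.card_filter]
    push_cast
    rfl
  have hupB : ∑ v : Vtx R M, (((univ : Finset (Fin R)).offDiag.filter fun p =>
        (good p.1 (v p.1).1 ∧ good p.2 (v p.2).1) ∧
          o p.1 (v p.1).1 = o p.2 (v p.2).1).card : ℝ) ≤
      (R : ℝ) ^ 2 * ((2 * M * N) * (16 * ε * Q)) := by
    simp only [Finset.card_filter]
    push_cast
    rw [Finset.sum_comm]
    have hoff : ((univ : Finset (Fin R)).offDiag.card : ℝ) ≤ (R : ℝ) ^ 2 := by
      have : (univ : Finset (Fin R)).offDiag.card ≤ R ^ 2 := by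
        rw [Finset.offDiag_card, Finset.card_univ, Fintype.card_fin, pow_two]
        omega
      exact_mod_cast this
    refine le_trans (Finset.sum_le_card_nsmul _ _ ((2 * M * N) * (16 * ε * Q)) ?_) ?_
    · rintro ⟨ρ, ρ'⟩ hp
      rw [mem_offDiag] at hp
      have hne : ρ ≠ ρ' := hp.2.2
      have e1 : ∀ v : Vtx R M, (if (good ρ (v ρ).1 ∧ good ρ' (v ρ').1) ∧
          o ρ (v ρ).1 = o ρ' (v ρ').1 then (1 : ℝ) else 0) ≤
          ∑ j, if v ρ ∈ (univ.filter fun u => good ρ u ∧ o ρ u = j) ×ˢ (univ : Finset Bool) ∧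
            v ρ' ∈ (univ.filter fun u => good ρ' u ∧ o ρ' u = j) ×ˢ (univ : Finset Bool)
            then (1 : ℝ) else 0 := by
        intro v
        split_ifs with h
        · refine le_trans ?_ (Finset.single_le_sum (f := fun j =>
            if v ρ ∈ (univ.filter fun u => good ρ u ∧ o ρ u = j) ×ˢ (univ : Finset Bool) ∧
            v ρ' ∈ (univ.filter fun u => good ρ' u ∧ o ρ' u = j) ×ˢ (univ : Finset Bool)
            then (1 : ℝ) else 0) (fun j _ => by positivity) (mem_univ (o ρ (v ρ).1)))
          rw [if_pos]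
          simp only [mem_product, mem_filter, mem_univ, true_and, and_true]
          exact ⟨h.1.1, h.1.2, h.2.symm⟩
        · exact Finset.sum_nonneg fun j _ => by positivity
      refine le_trans (Finset.sum_le_sum fun v _ => e1 v) ?_
      rw [Finset.sum_comm]
      have e2 : ∀ j, (∑ v : Vtx R M,
          if v ρ ∈ (univ.filter fun u => good ρ u ∧ o ρ u = j) ×ˢ (univ : Finset Bool) ∧
            v ρ' ∈ (univ.filter fun u => good ρ' u ∧ o ρ' u = j) ×ˢ (univ : Finset Bool)
            then (1 : ℝ) else 0) ≤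
          (2 * M * N) * (16 * ε * Q) *
            (((univ.filter fun u => good ρ' u ∧ o ρ' u = j).card : ℝ) / M) := by
        intro j
        rw [Finset.sum_boole, box2 hM hne, hnN, Finset.card_product, Finset.card_product,
          Finset.card_univ, Fintype.card_bool]
        have := ha j ρ
        push_cast
        have hz' : (0 : ℝ) ≤ ((univ.filter fun u => good ρ' u ∧ o ρ' u = j).card : ℝ) :=
          Nat.cast_nonneg _
        generalize ((univ.filter fun u => good ρ u ∧ o ρ u = j).card : ℝ) = z at this ⊢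
        generalize ((univ.filter fun u => good ρ' u ∧ o ρ' u = j).card : ℝ) = z' at hz' ⊢
        have e3 : z * 2 / (2 * M) ≤ 16 * ε * Q := by
          rw [div_le_iff₀ (by positivity)]
          linarith
        calc 2 * M * N * (z * 2 / (2 * M) * (z' * 2 / (2 * M)))
            ≤ 2 * M * N * (16 * ε * Q * (z' * 2 / (2 * M))) := by
              gcongr
          _ = _ := by field_simp
      refine le_trans (Finset.sum_le_sum fun j _ => e2 j) ?_
      rw [← Finset.mul_sum, ← Finset.sum_div]
      have e4 : ∑ j, ((univ.filter fun u => good ρ' u ∧ o ρ' u = j).card : ℝ) ≤ M := by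
        have e5 : ∑ j, (univ.filter fun u => good ρ' u ∧ o ρ' u = j).card =
            (univ.filter fun u => good ρ' u).card := by
          rw [Finset.card_eq_sum_card_fiberwise (f := fun u => o ρ' u) (t := univ)
            (fun _ _ => Finset.mem_coe.2 (mem_univ _))]
          refine Finset.sum_congr rfl fun j _ => ?_
          rw [Finset.filter_filter]
        have e6 : (univ.filter fun u => good ρ' u).card ≤ M := by
          have := Finset.card_filter_le (univ : Finset (Fin M)) (fun u => good ρ' u)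
          rwa [Finset.card_univ, Fintype.card_fin] at this
        rw [← Nat.cast_sum, e5]
        exact_mod_cast e6
      have e7 : (∑ j, ((univ.filter fun u => good ρ' u ∧ o ρ' u = j).card : ℝ)) / M ≤ 1 := by
        rw [div_le_one hMR]
        exact e4
      calc _ ≤ (2 * M * N) * (16 * ε * Q) * 1 := mul_le_mul_of_nonneg_left e7 (by positivity)
        _ = _ := by ring
    · rw [nsmul_eq_mul]
      exact mul_le_mul_of_nonneg_right hoff (by positivity)
  have hfin : (R : ℝ) * (3 * M / 4 * (N / Q)) ≤
      9 * r * (2 * M * N) + (R : ℝ) ^ 2 * ((2 * M * N) * (16 * ε * Q)) := by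
    refine hAlow.trans ?_
    refine (Finset.sum_le_sum fun v _ => hup1 v).trans ?_
    rw [Finset.sum_add_distrib]
    exact add_le_add hupA hupB
  have hfin2 : (R : ℝ) ^ 2 * ((2 * M * N) * (16 * ε * Q)) ≤ r * (2 * M * N) := by
    calc (R : ℝ) ^ 2 * ((2 * M * N) * (16 * ε * Q)) =
        (576 * ε * (R : ℝ) ^ 2) * (r * (2 * M * N)) := by rw [hQ]; ring
      _ ≤ 1 * (r * (2 * M * N)) := by gcongr
      _ = _ := one_mul _
  have hfin3 : (R : ℝ) * (3 * M / 4 * (N / Q)) ≤ 10 * r * (2 * M * N) := by linarith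
  have hfin4 : (R : ℝ) * (3 * M / 4 * (N / Q)) = (R / (96 * r)) * (2 * M * N) := by
    rw [hQ]
    field_simp
    ring
  rw [hfin4] at hfin3
  have hfin5 : R / (96 * r) ≤ 10 * r := le_of_mul_le_mul_right hfin3 (by positivity)
  rw [div_le_iff₀ (by linarith)] at hfin5
  linarith

end Pool.Agent.Y643.TC
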