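import Mathlib

/-!
# Two counting lemmas for 0-1 vectors
-/

set_option autoImplicit false

namespace Pool.Agent.Y643.TC

open Finset

variable {ι : Type} [Fintype ι] [DecidableEq ι]

/-- `x` differs from every pattern in the list `P` -/
def Avoid (P : List (Finset ι × (ι → Bool))) (x : ι → Bool) : Prop :=
  ∀ p ∈ P, ∃ i ∈ p.1, x i ≠ p.2 i

open Classical in
theorem avoid_card (k : ℕ) (P : List (Finset ι × (ι → Bool)))
    (hP : P.Pairwise fun p q => Disjoint p.1 q.1) (hk : ∀ p ∈ P, p.1.card ≤ k) :
    ((univ.filter fun x : ι → Bool => Avoid P x).card : ℝ) ≤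
      2 ^ Fintype.card ι * (1 - (1 / 2) ^ k) ^ P.length := by
  induction P with
  | nil => simp [Avoid]
  | cons p P ih =>
    rw [List.pairwise_cons] at hP
    have ih' := ih hP.2 fun q hq => hk q (List.mem_cons_of_mem _ hq)
    set A := univ.filter fun x : ι → Bool => Avoid P x with hA
    set B := univ.filter fun x : ι → Bool => Avoid P x ∧ ∀ i ∈ p.1, x i = p.2 i with hB
    have hsplit : (univ.filter fun x : ι → Bool => Avoid (p :: P) x) ⊆ A \ B := by
      intro x hx
      simp only [mem_filter, mem_univ, true_and] at hx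
      simp only [hA, hB, mem_sdiff, mem_filter, mem_univ, true_and, not_and]
      refine ⟨fun q hq => hx q (List.mem_cons_of_mem _ hq), fun _ h => ?_⟩
      obtain ⟨i, hi, hi2⟩ := hx p List.mem_cons_self
      exact hi2 (h i hi)
    have hBA : B ⊆ A := by
      intro x hx
      simp only [hA, hB, mem_filter, mem_univ, true_and] at hx ⊢
      exact hx.1
    have hcard : A.card ≤ 2 ^ k * B.card := by
      refine Finset.card_le_mul_card_image_of_maps_to
        (f := fun x i => if i ∈ p.1 then p.2 i else x i) ?_ _ ?_
      · intro x hx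
        simp only [hA, hB, mem_filter, mem_univ, true_and] at hx ⊢
        refine ⟨fun q hq => ?_, fun i hi => by simp [hi]⟩
        obtain ⟨i, hi, hi2⟩ := hx q hq
        have hni : i ∉ p.1 := fun h => Finset.disjoint_left.1 (hP.1 q hq) h hi
        exact ⟨i, hi, by simpa [hni] using hi2⟩
      · intro b hb
        have h1 : (A.filter fun x => (fun i => if i ∈ p.1 then p.2 i else x i) = b).card ≤
            p.1.powerset.card := by
          refine Finset.card_le_card_of_injOn (fun x => p.1.filter fun i => x i = true) ?_ ?_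
          · intro x _
            exact Finset.mem_coe.2 (Finset.mem_powerset.2 (Finset.filter_subset _ _))
          · intro x hx y hy hxy
            simp only [coe_filter, Set.mem_setOf_eq] at hx hy
            funext i
            by_cases hi : i ∈ p.1
            · have := congrArg (fun s => i ∈ s) hxy
              simp only [mem_filter, hi, true_and, eq_iff_iff] at this
              exact Bool.eq_iff_iff.2 this
            · have e1 := congrFun hx.2 i
              have e2 := congrFun hy.2 i
              simp only [hi, if_false] at e1 e2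
              rw [e1, e2]
        refine h1.trans ?_
        rw [Finset.card_powerset]
        exact Nat.pow_le_pow_right (by norm_num) (hk p List.mem_cons_self)
    have h2 : ((univ.filter fun x : ι → Bool => Avoid (p :: P) x).card : ℝ) ≤
        A.card - B.card := by
      have h3 := Finset.card_le_card hsplit
      rw [Finset.card_sdiff_of_subset hBA] at h3
      have h4 := Finset.card_le_card hBA
      have h5 : ((univ.filter fun x : ι → Bool => Avoid (p :: P) x).card : ℝ) ≤
        ((A.card - B.card : ℕ) : ℝ) := by exact_mod_cast h3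
      rwa [Nat.cast_sub h4] at h5
    have h6 : (A.card : ℝ) * (1 / 2) ^ k ≤ B.card := by
      have : (A.card : ℝ) ≤ 2 ^ k * B.card := by exact_mod_cast hcard
      have e : (1 / 2 : ℝ) ^ k = 1 / 2 ^ k := by rw [div_pow, one_pow]
      rw [e, mul_one_div, div_le_iff₀ (by positivity)]
      linarith
    have hq : (0 : ℝ) ≤ 1 - (1 / 2) ^ k := by
      have : (1 / 2 : ℝ) ^ k ≤ 1 := pow_le_one₀ (by norm_num) (by norm_num)
      linarith
    calc ((univ.filter fun x : ι → Bool => Avoid (p :: P) x).card : ℝ) ≤ A.card - B.card := h2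
      _ ≤ A.card * (1 - (1 / 2) ^ k) := by linarith
      _ ≤ (2 ^ Fintype.card ι * (1 - (1 / 2) ^ k) ^ P.length) * (1 - (1 / 2) ^ k) := by
          gcongr
      _ = 2 ^ Fintype.card ι * (1 - (1 / 2) ^ k) ^ (p :: P).length := by
          rw [List.length_cons, pow_succ]
          ring

theorem exp_pair {a b : ℝ} (ha : 0 ≤ a) (hb : 0 ≤ b) (hab : a + b ≤ 1) :
    Real.exp (-a) + Real.exp (-b) ≤ 2 * Real.exp (-(a + b) / 4) := by
  have h1 : ∀ t : ℝ, 0 ≤ t → t ≤ 1 → Real.exp (-t) ≤ 1 - t / 2 := by
    intro t h0 h1
    have h2 := Real.add_one_le_exp t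
    have h3 : Real.exp (-t) ≤ 1 / (1 + t) := by
      rw [Real.exp_neg, ← one_div]
      exact one_div_le_one_div_of_le (by linarith) (by linarith)
    refine h3.trans ?_
    rw [div_le_iff₀ (by linarith)]
    nlinarith
  have h2 := h1 a ha (by linarith)
  have h3 := h1 b hb (by linarith)
  have h4 := Real.add_one_le_exp (-(a + b) / 4)
  linarith

open Classical in
theorem chernoff (t : ι → Bool → ℝ) (h0 : ∀ i b, 0 ≤ t i b)
    (h1 : ∀ i, t i false + t i true ≤ 1) :
    ((univ.filter fun x : ι → Bool =>
      ∑ i, t i (x i) ≤ (∑ i, (t i false + t i true)) / 8).card : ℝ) ≤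
      2 ^ Fintype.card ι * Real.exp (-(∑ i, (t i false + t i true)) / 8) := by
  set W := ∑ i, (t i false + t i true) with hW
  have hsum : ∑ x : ι → Bool, Real.exp (-∑ i, t i (x i)) ≤
      2 ^ Fintype.card ι * Real.exp (-W / 4) := by
    have e1 : ∑ x : ι → Bool, Real.exp (-∑ i, t i (x i)) =
        ∏ i : ι, ∑ b : Bool, Real.exp (-t i b) := by
      rw [Finset.prod_univ_sum, Fintype.piFinset_univ]
      refine Finset.sum_congr rfl fun x _ => ?_
      rw [← Real.exp_sum, Finset.sum_neg_distrib]
    rw [e1]
    calc ∏ i : ι, ∑ b : Bool, Real.exp (-t i b)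
        ≤ ∏ i : ι, (2 * Real.exp (-(t i false + t i true) / 4)) := by
          refine Finset.prod_le_prod (fun i _ => by positivity) fun i _ => ?_
          rw [Fintype.sum_bool, add_comm]
          exact exp_pair (h0 i false) (h0 i true) (h1 i)
      _ = 2 ^ Fintype.card ι * Real.exp (-W / 4) := by
          rw [Finset.prod_mul_distrib, Finset.prod_const, Finset.card_univ, ← Real.exp_sum, hW]
          congr 2
          rw [← Finset.sum_div, ← Finset.sum_neg_distrib]
  have hle : ((univ.filter fun x : ι → Bool => ∑ i, t i (x i) ≤ W / 8).card : ℝ) *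
      Real.exp (-W / 8) ≤ ∑ x : ι → Bool, Real.exp (-∑ i, t i (x i)) := by
    rw [← nsmul_eq_mul, ← Finset.sum_const]
    refine le_trans (Finset.sum_le_sum fun x hx => ?_)
      (Finset.sum_le_sum_of_subset_of_nonneg (Finset.filter_subset _ _)
        fun x _ _ => (Real.exp_pos _).le)
    rw [mem_filter] at hx
    refine Real.exp_le_exp.2 ?_
    linarith [hx.2]
  have h2 := hle.trans hsum
  have h3 : Real.exp (-W / 4) = Real.exp (-W / 8) * Real.exp (-W / 8) := by
    rw [← Real.exp_add]
    congr 1
    ring
  rw [h3, ← mul_assoc] at h2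
  exact le_of_mul_le_mul_right h2 (Real.exp_pos _)

end Pool.Agent.Y643.TC
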