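import Mathlib

/-!
# (min, +) programs and the weighted vertex cover problem on co-normal powers of a matching
-/

set_option autoImplicit false

namespace Pool.Agent.Y643.TC

/-- The functions that may be used at the next gate of a program: the functions computed at the
gates in the list `l`, the weights of the vertices and the nonnegative constants. -/
def Avail {V : Type} (l : List ((V → ℝ) → ℝ)) (f : (V → ℝ) → ℝ) : Prop :=
  f ∈ l ∨ (∃ v, f = fun w => w v) ∨ ∃ c : ℝ, 0 ≤ c ∧ f = fun _ => c

/-- `Prog l`: the list `l` consists of the functions computed at the gates of a (min, +) program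
(the last gate is the first entry). The inputs of the program are the weights `w v` of the
vertices and nonnegative constants; every gate computes the minimum or the sum of two functions
which are inputs or have been computed before. -/
inductive Prog {V : Type} : List ((V → ℝ) → ℝ) → Prop
  | nil : Prog []
  | min {l : List ((V → ℝ) → ℝ)} {f g : (V → ℝ) → ℝ} :
      Prog l → Avail l f → Avail l g → Prog ((fun w => min (f w) (g w)) :: l)
  | add {l : List ((V → ℝ) → ℝ)} {f g : (V → ℝ) → ℝ} :
      Prog l → Avail l f → Avail l g → Prog ((fun w => f w + g w) :: l)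

/-- the minimum weight of a vertex cover -/
noncomputable def optVC {V : Type} (G : SimpleGraph V) (w : V → ℝ) : ℝ :=
  ⨅ C : {C : Finset V // G.IsVertexCover (C : Set V)}, ∑ v ∈ C.1, w v

/-- `f` approximates the minimum weight of a vertex cover within the factor `r` -/
def Approx {V : Type} (G : SimpleGraph V) (r : ℝ) (f : (V → ℝ) → ℝ) : Prop :=
  ∀ w : V → ℝ, (∀ v, 0 ≤ w v) → optVC G w ≤ f w ∧ f w ≤ r * optVC G w

/-- the vertices: `R`-tuples of literals `(u, b)` with `u` one of `M` variables -/
abbrev Vtx (R M : ℕ) := Fin R → Fin M × Bool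

/-- the literals number `ρ` of `v` and `v'` are opposite -/
def Opp {R M : ℕ} (ρ : Fin R) (v v' : Vtx R M) : Prop := (v ρ).1 = (v' ρ).1 ∧ (v ρ).2 ≠ (v' ρ).2

theorem Opp.symm {R M : ℕ} {ρ : Fin R} {v v' : Vtx R M} (h : Opp ρ v v') : Opp ρ v' v :=
  ⟨h.1.symm, h.2.symm⟩

/-- the `R`-th co-normal power of the perfect matching with the `M` edges
`(u, false) - (u, true)`: two `R`-tuples are adjacent if and only if their entries are adjacent
at some place -/
def conorm (R M : ℕ) : SimpleGraph (Vtx R M) where
  Adj v v' := ∃ ρ, Opp ρ v v'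
  symm := ⟨fun _ _ ⟨ρ, h⟩ => ⟨ρ, h.symm⟩⟩
  loopless := ⟨fun _ ⟨_, h⟩ => h.2 rfl⟩

end Pool.Agent.Y643.TC
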