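import Pool.Agent.Y643.TC.Core

/-!
# Exceptional assignments
-/

set_option autoImplicit false

namespace Pool.Agent.Y643.TC

open Finset

variable {R M K : ℕ}

open Classical in
theorem pair_count {α : Type*} (P0 P1 : Finset α) (D : Fin K → Finset α)
    (S : Fin K → α → Finset α) (b : ℝ)
    (h : ∀ v ∈ P0, ∀ v' ∈ P1, ∃ j, v' ∈ S j v ∧ v ∈ S j v')
    (hS : ∀ j v, v ∉ D j → ((S j v).card : ℝ) ≤ b) (hb : 0 ≤ b) :
    (P0.card : ℝ) * P1.card ≤
      ∑ j, (((D j).filter fun v => v ∈ P0).card : ℝ) * (((D j).filter fun v => v ∈ P1).card : ℝ)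
        + K * (P0.card * b) + K * (P1.card * b) := by
  have e1 : (P0.card : ℝ) * P1.card ≤ ∑ v ∈ P0, ∑ v' ∈ P1, ∑ j : Fin K,
      ((if v ∈ D j then (1 : ℝ) else 0) * (if v' ∈ D j then (1 : ℝ) else 0) +
        (if v ∉ D j ∧ v' ∈ S j v then (1 : ℝ) else 0) +
        (if v' ∉ D j ∧ v ∈ S j v' then (1 : ℝ) else 0)) := by
    have : (P0.card : ℝ) * P1.card = ∑ v ∈ P0, ∑ v' ∈ P1, (1 : ℝ) := by simp
    rw [this]
    refine Finset.sum_le_sum fun v hv => Finset.sum_le_sum fun v' hv' => ?_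
    obtain ⟨j, hj1, hj2⟩ := h v hv v' hv'
    refine le_trans ?_ (Finset.single_le_sum (f := fun j =>
      ((if v ∈ D j then (1 : ℝ) else 0) * (if v' ∈ D j then (1 : ℝ) else 0) +
        (if v ∉ D j ∧ v' ∈ S j v then (1 : ℝ) else 0) +
        (if v' ∉ D j ∧ v ∈ S j v' then (1 : ℝ) else 0))) (fun j _ => ?_) (mem_univ j))
    · by_cases a : v ∈ D j <;> by_cases a' : v' ∈ D j <;> simp [a, a', hj1, hj2]
    · split_ifs <;> norm_num
  refine e1.trans ?_
  have e2 : ∑ v ∈ P0, ∑ v' ∈ P1, ∑ j : Fin K,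
      ((if v ∈ D j then (1 : ℝ) else 0) * (if v' ∈ D j then (1 : ℝ) else 0) +
        (if v ∉ D j ∧ v' ∈ S j v then (1 : ℝ) else 0) +
        (if v' ∉ D j ∧ v ∈ S j v' then (1 : ℝ) else 0)) =
      ∑ j : Fin K, (∑ v ∈ P0, ∑ v' ∈ P1,
        (if v ∈ D j then (1 : ℝ) else 0) * (if v' ∈ D j then (1 : ℝ) else 0)) +
      ∑ j : Fin K, (∑ v ∈ P0, ∑ v' ∈ P1, (if v ∉ D j ∧ v' ∈ S j v then (1 : ℝ) else 0)) +
      ∑ j : Fin K, (∑ v ∈ P0, ∑ v' ∈ P1, (if v' ∉ D j ∧ v ∈ S j v' then (1 : ℝ) else 0)) := by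
    rw [← Finset.sum_add_distrib, ← Finset.sum_add_distrib]
    simp only [← Finset.sum_add_distrib]
    rw [Finset.sum_comm (s := univ) (t := P0)]
    exact Finset.sum_congr rfl fun v _ => Finset.sum_comm
  rw [e2]
  refine add_le_add (add_le_add ?_ ?_) ?_
  · refine Finset.sum_le_sum fun j _ => ?_
    simp only [← Finset.mul_sum, ← Finset.sum_mul]
    rw [Finset.sum_boole, Finset.sum_boole]
    refine le_of_eq ?_
    congr 3 <;> (ext v; simp only [mem_filter]; tauto)
  · have : ∀ j ∈ (univ : Finset (Fin K)), (∑ v ∈ P0, ∑ v' ∈ P1,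
        (if v ∉ D j ∧ v' ∈ S j v then (1 : ℝ) else 0)) ≤ P0.card * b := by
      intro j _
      rw [← nsmul_eq_mul]
      refine Finset.sum_le_card_nsmul _ _ _ fun v _ => ?_
      by_cases hv : v ∈ D j
      · simp [hv, hb]
      · refine le_trans ?_ (hS j v hv)
        simp only [hv, not_false_eq_true, true_and]
        rw [Finset.sum_boole]
        refine Nat.cast_le.2 (Finset.card_le_card ?_)
        intro w hw
        exact (mem_filter.1 hw).2
    refine (Finset.sum_le_card_nsmul _ _ _ this).trans (le_of_eq ?_)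
    simp
  · have : ∀ j ∈ (univ : Finset (Fin K)), (∑ v ∈ P0, ∑ v' ∈ P1,
        (if v' ∉ D j ∧ v ∈ S j v' then (1 : ℝ) else 0)) ≤ P1.card * b := by
      intro j _
      rw [Finset.sum_comm, ← nsmul_eq_mul]
      refine Finset.sum_le_card_nsmul _ _ _ fun v _ => ?_
      by_cases hv : v ∈ D j
      · simp [hv, hb]
      · refine le_trans ?_ (hS j v hv)
        simp only [hv, not_false_eq_true, true_and]
        rw [Finset.sum_boole]
        refine Nat.cast_le.2 (Finset.card_le_card ?_)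
        intro w hw
        exact (mem_filter.1 hw).2
    refine (Finset.sum_le_card_nsmul _ _ _ this).trans (le_of_eq ?_)
    simp

open Classical in
/-- the opposite vertices of `v` at the place `ρ` such that the pair is certified by piece `j` -/
noncomputable def SS (Fs : Fin K → Vtx R M → Vtx R M → Prop) (j : Fin K) (ρ : Fin R)
    (v : Vtx R M) : Finset (Vtx R M) :=
  univ.filter fun v' => Opp ρ v v' ∧ Fs j v v'

open Classical in
/-- the vertices of large degree in piece `j` at the place `ρ` -/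
noncomputable def DD (Fs : Fin K → Vtx R M → Vtx R M → Prop) (e : ℝ) (j : Fin K) (ρ : Fin R) :
    Finset (Vtx R M) :=
  univ.filter fun v => e * (nn R M / (2 * M)) ≤ ((SS Fs j ρ v).card : ℝ)

open Classical in
/-- the vertices of `DD` which are not of large degree at a smaller place -/
noncomputable def WW (Fs : Fin K → Vtx R M → Vtx R M → Prop) (e : ℝ) (j : Fin K) (ρ : Fin R) :
    Finset (Vtx R M) :=
  (DD Fs e j ρ).filter fun v => ∀ ρ' < ρ, v ∉ DD Fs e j ρ'

open Classical in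
theorem dense_pairs (hM : 0 < M) (hK : 0 < K) (Fs : Fin K → Vtx R M → Vtx R M → Prop)
    (hsym : ∀ j v v', Fs j v v' → Fs j v' v)
    (hcov : ∀ ρ v v', Opp ρ v v' → ∃ j, Fs j v v') (ρ : Fin R) (u : Fin M) :
    (nn R M / (2 * M)) ^ 2 / 2 ≤
      ∑ j, (((DD Fs (1 / (4 * K)) j ρ).filter fun v => v ρ = (u, false)).card : ℝ) *
        (((DD Fs (1 / (4 * K)) j ρ).filter fun v => v ρ = (u, true)).card : ℝ) := by
  have hMR : (0 : ℝ) < M := by exact_mod_cast hM
  have hKR : (0 : ℝ) < K := by exact_mod_cast hK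
  have hn := nn_pos (R := R) hM
  have h := pair_count (univ.filter fun v : Vtx R M => v ρ = (u, false))
    (univ.filter fun v : Vtx R M => v ρ = (u, true))
    (fun j => DD Fs (1 / (4 * K)) j ρ) (fun j v => SS Fs j ρ v)
    (1 / (4 * K) * (nn R M / (2 * M))) (by
      intro v hv v' hv'
      rw [mem_filter] at hv hv'
      have ho : Opp ρ v v' := by
        unfold Opp
        rw [hv.2, hv'.2]
        simp
      obtain ⟨j, hj⟩ := hcov ρ v v' ho
      refine ⟨j, ?_, ?_⟩
      · unfold SS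
        rw [mem_filter]
        exact ⟨mem_univ _, ho, hj⟩
      · unfold SS
        rw [mem_filter]
        exact ⟨mem_univ _, ho.symm, hsym _ _ _ hj⟩) (by
      intro j v hv
      unfold DD at hv
      rw [mem_filter] at hv
      push Not at hv
      exact (hv (mem_univ _)).le) (by positivity)
  rw [side_card hM, side_card hM] at h
  have e1 : (K : ℝ) * (nn R M / (2 * M) * (1 / (4 * K) * (nn R M / (2 * M)))) =
      (nn R M / (2 * M)) ^ 2 / 4 := by
    field_simp
  rw [e1] at h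
  have e2 : ∀ (j : Fin K) (b : Bool)
      (inst : DecidablePred fun v => v ∈ univ.filter fun v : Vtx R M => v ρ = (u, b)),
      (@Finset.filter _ (fun v => v ∈ univ.filter fun v : Vtx R M => v ρ = (u, b)) inst
        (DD Fs (1 / (4 * K)) j ρ)) =
      (DD Fs (1 / (4 * K)) j ρ).filter fun v => v ρ = (u, b) := by
    intro j b inst
    ext v
    simp
  simp only [e2] at h
  nlinarith

open Classical in
theorem dd_subset (Fs : Fin K → Vtx R M → Vtx R M → Prop) (e : ℝ) (x : Asg R M)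
    (T : Fin K → Finset (Vtx R M)) (hT1 : ∀ j, ∀ v ∈ T j, ¬ Alive x v)
    (hT2 : ∀ j v v', Fs j v v' → v ∈ T j ∨ v' ∈ T j)
    (hA : ∀ j ρ v, v ∈ DD Fs e j ρ → Killed x ρ v → ∃ s ∈ SS Fs j ρ v, Alive x s)
    (j : Fin K) (ρ : Fin R) (v : Vtx R M) (hv : v ∈ DD Fs e j ρ) (hk : Killed x ρ v) :
    v ∈ T j := by
  obtain ⟨s, hs, hal⟩ := hA j ρ v hv hk
  unfold SS at hs
  rw [mem_filter] at hs
  rcases hT2 j v s hs.2.2 with h | h
  · exact h
  · exact absurd hal (hT1 j s h)

open Classical in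
theorem det_core (hM : 0 < M) (hK : 0 < K) (r ε δ : ℝ) (hr : 1 ≤ r)
    (hε' : 576 * ε * (R : ℝ) ^ 2 ≤ 1) (hδ : 0 < δ) (hδε : δ ≤ 8 * ε) (hKR : K * R * δ ≤ r)
    (Fs : Fin K → Vtx R M → Vtx R M → Prop)
    (hsym : ∀ j v v', Fs j v v' → Fs j v' v)
    (hcov : ∀ ρ v v', Opp ρ v v' → ∃ j, Fs j v v')
    (x : Asg R M) (T : Fin K → Finset (Vtx R M)) (hT1 : ∀ j, ∀ v ∈ T j, ¬ Alive x v)
    (hT2 : ∀ j v v', Fs j v v' → v ∈ T j ∨ v' ∈ T j)
    (hT3 : ∀ j, ((T j).card : ℝ) ≤ ε * nn R M)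
    (hT4 : ∑ j, ((T j).card : ℝ) ≤ r * nn R M)
    (hA : ∀ j ρ v, v ∈ DD Fs (1 / (4 * K)) j ρ → Killed x ρ v →
      ∃ s ∈ SS Fs j ρ v, Alive x s)
    (hB : ∀ j ρ, δ * nn R M ≤ ((DD Fs (1 / (4 * K)) j ρ).card : ℝ) →
      ((DD Fs (1 / (4 * K)) j ρ).card : ℝ) / 8 <
        (((DD Fs (1 / (4 * K)) j ρ).filter fun v => Killed x ρ v).card : ℝ))
    (hC : ∀ j ρ, δ * nn R M ≤ ((WW Fs (1 / (4 * K)) j ρ).card : ℝ) →
      ((WW Fs (1 / (4 * K)) j ρ).card : ℝ) / 8 <
        (((WW Fs (1 / (4 * K)) j ρ).filter fun v => Killed x ρ v).card : ℝ)) :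
    (R : ℝ) ≤ 960 * r ^ 2 := by
  have hn := nn_pos (R := R) hM
  have hsub := dd_subset Fs _ x T hT1 hT2 hA
  refine core_count hM r ε hr hε' (by linarith) (fun j ρ => DD Fs (1 / (4 * K)) j ρ) ?_ ?_
    (dense_pairs hM hK Fs hsym hcov)
  · intro j ρ
    by_cases h : δ * nn R M ≤ ((DD Fs (1 / (4 * K)) j ρ).card : ℝ)
    · have h1 := hB j ρ h
      have h2 : (((DD Fs (1 / (4 * K)) j ρ).filter fun v => Killed x ρ v).card : ℝ) ≤
          (T j).card := by
        refine Nat.cast_le.2 (Finset.card_le_card ?_)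
        intro v hv
        rw [mem_filter] at hv
        exact hsub j ρ v hv.1 hv.2
      have := hT3 j
      linarith
    · push Not at h
      have : δ * nn R M ≤ 8 * ε * nn R M := by gcongr
      linarith
  · have h1 : ∀ j, ((univ.biUnion fun ρ => DD Fs (1 / (4 * K)) j ρ).card : ℝ) ≤
        R * (δ * nn R M) + 8 * (T j).card := by
      intro j
      have h2 : (univ.biUnion fun ρ => DD Fs (1 / (4 * K)) j ρ) ⊆
          univ.biUnion fun ρ => WW Fs (1 / (4 * K)) j ρ := by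
        intro v hv
        rw [mem_biUnion] at hv ⊢
        obtain ⟨ρ, -, hρ⟩ := hv
        have hne : (univ.filter fun ρ : Fin R => v ∈ DD Fs (1 / (4 * K)) j ρ).Nonempty :=
          ⟨ρ, by rw [mem_filter]; exact ⟨mem_univ _, hρ⟩⟩
        refine ⟨(univ.filter fun ρ : Fin R => v ∈ DD Fs (1 / (4 * K)) j ρ).min' hne,
          mem_univ _, ?_⟩
        unfold WW
        rw [mem_filter]
        refine ⟨(mem_filter.1 (Finset.min'_mem _ hne)).2, ?_⟩
        intro ρ' hρ' hmem
        have := Finset.min'_le (univ.filter fun ρ : Fin R => v ∈ DD Fs (1 / (4 * K)) j ρ) ρ'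
          (by rw [mem_filter]; exact ⟨mem_univ _, hmem⟩)
        exact absurd hρ' (not_lt.2 this)
      have h3 : ((univ.biUnion fun ρ => DD Fs (1 / (4 * K)) j ρ).card : ℝ) ≤
          ∑ ρ, ((WW Fs (1 / (4 * K)) j ρ).card : ℝ) := by
        rw [← Nat.cast_sum]
        exact Nat.cast_le.2 ((Finset.card_le_card h2).trans Finset.card_biUnion_le)
      have h4 : ∀ ρ, ((WW Fs (1 / (4 * K)) j ρ).card : ℝ) ≤ δ * nn R M +
          8 * (((WW Fs (1 / (4 * K)) j ρ).filter fun v => Killed x ρ v).card : ℝ) := by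
        intro ρ
        have h5 : (0 : ℝ) ≤ (((WW Fs (1 / (4 * K)) j ρ).filter fun v => Killed x ρ v).card : ℝ) :=
          Nat.cast_nonneg _
        by_cases h : δ * nn R M ≤ ((WW Fs (1 / (4 * K)) j ρ).card : ℝ)
        · have := hC j ρ h
          have : 0 < δ * nn R M := by positivity
          linarith
        · push Not at h
          linarith
      have h6 : ∑ ρ, (((WW Fs (1 / (4 * K)) j ρ).filter fun v => Killed x ρ v).card : ℝ) ≤
          (T j).card := by
        rw [← Nat.cast_sum, ← Finset.card_biUnion]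
        · refine Nat.cast_le.2 (Finset.card_le_card ?_)
          intro v hv
          rw [mem_biUnion] at hv
          obtain ⟨ρ, -, hρ⟩ := hv
          rw [mem_filter] at hρ
          unfold WW at hρ
          exact hsub j ρ v (mem_filter.1 hρ.1).1 hρ.2
        · intro ρ _ ρ' _ hne
          refine Finset.disjoint_left.2 ?_
          intro v hv hv'
          have hv1 := (mem_filter.1 hv).1
          have hv2 := (mem_filter.1 hv').1
          unfold WW at hv1 hv2
          rw [mem_filter] at hv1 hv2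
          rcases lt_or_gt_of_ne hne with h | h
          · exact hv2.2 ρ h hv1.1
          · exact hv1.2 ρ' h hv2.1
      refine h3.trans ((Finset.sum_le_sum fun ρ _ => h4 ρ).trans ?_)
      rw [Finset.sum_add_distrib, Finset.sum_const, Finset.card_univ, Fintype.card_fin,
        nsmul_eq_mul, ← Finset.mul_sum]
      linarith
    refine (Finset.sum_le_sum fun j _ => h1 j).trans ?_
    rw [Finset.sum_add_distrib, Finset.sum_const, Finset.card_univ, Fintype.card_fin,
      nsmul_eq_mul, ← Finset.mul_sum]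
    have : (K : ℝ) * (R * (δ * nn R M)) ≤ r * nn R M := by
      calc (K : ℝ) * (R * (δ * nn R M)) = (K * R * δ) * nn R M := by ring
        _ ≤ r * nn R M := by gcongr
    linarith

open Classical in
theorem core (hM : 0 < M) (hK : 0 < K) (r ε δ : ℝ) (hr : 1 ≤ r) (hR : 1000 * r ^ 2 ≤ R)
    (hε' : 576 * ε * (R : ℝ) ^ 2 ≤ 1) (hδ : 0 < δ) (hδε : δ ≤ 8 * ε) (hKR : K * R * δ ≤ r)
    (L : ℕ) (hL : (R : ℝ) * L ≤ 1 / (4 * K) * M)
    (Fs : Fin K → Vtx R M → Vtx R M → Prop)
    (hsym : ∀ j v v', Fs j v v' → Fs j v' v)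
    (hcov : ∀ ρ v v', Opp ρ v v' → ∃ j, Fs j v v') :
    ((univ.filter fun x : Asg R M => ∃ T : Fin K → Finset (Vtx R M),
      (∀ j, ∀ v ∈ T j, ¬ Alive x v) ∧ (∀ j v v', Fs j v v' → v ∈ T j ∨ v' ∈ T j) ∧
      (∀ j, ((T j).card : ℝ) ≤ ε * nn R M) ∧
      ∑ j, ((T j).card : ℝ) ≤ r * nn R M).card : ℝ) ≤
    2 ^ (R * M) * (K * R * nn R M * (1 - (1 / 2) ^ R) ^ L +
      2 * K * R * Real.exp (-(δ * M) / 8)) := by
  have hMR : (0 : ℝ) < M := by exact_mod_cast hM
  have hKR' : (0 : ℝ) < K := by exact_mod_cast hK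
  have hn := nn_pos (R := R) hM
  have hpow : (0 : ℝ) ≤ (1 - (1 / 2) ^ R) ^ L := by
    apply pow_nonneg
    have : ((1 : ℝ) / 2) ^ R ≤ 1 := pow_le_one₀ (by norm_num) (by norm_num)
    linarith
  obtain ⟨EA, hEA⟩ : ∃ EA : Finset (Asg R M), EA =
    (univ : Finset (Fin K × Fin R × Vtx R M)).biUnion fun p => univ.filter fun x : Asg R M =>
      p.2.2 ∈ DD Fs (1 / (4 * K)) p.1 p.2.1 ∧ Killed x p.2.1 p.2.2 ∧
        ∀ s ∈ SS Fs p.1 p.2.1 p.2.2, ¬ Alive x s := ⟨_, rfl⟩
  obtain ⟨EB, hEB⟩ : ∃ EB : Finset (Asg R M), EB =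
    (univ : Finset (Fin K × Fin R)).biUnion fun p => univ.filter fun x : Asg R M =>
      δ * nn R M ≤ ((DD Fs (1 / (4 * K)) p.1 p.2).card : ℝ) ∧
      (((DD Fs (1 / (4 * K)) p.1 p.2).filter fun v => Killed x p.2 v).card : ℝ) ≤
        ((DD Fs (1 / (4 * K)) p.1 p.2).card : ℝ) / 8 := ⟨_, rfl⟩
  obtain ⟨EC, hEC⟩ : ∃ EC : Finset (Asg R M), EC =
    (univ : Finset (Fin K × Fin R)).biUnion fun p => univ.filter fun x : Asg R M =>
      δ * nn R M ≤ ((WW Fs (1 / (4 * K)) p.1 p.2).card : ℝ) ∧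
      (((WW Fs (1 / (4 * K)) p.1 p.2).filter fun v => Killed x p.2 v).card : ℝ) ≤
        ((WW Fs (1 / (4 * K)) p.1 p.2).card : ℝ) / 8 := ⟨_, rfl⟩
  have hcA : (EA.card : ℝ) ≤ K * R * nn R M * (2 ^ (R * M) * (1 - (1 / 2) ^ R) ^ L) := by
    have e1 : (EA.card : ℝ) ≤ ∑ p : Fin K × Fin R × Vtx R M,
        ((univ.filter fun x : Asg R M =>
          p.2.2 ∈ DD Fs (1 / (4 * K)) p.1 p.2.1 ∧ Killed x p.2.1 p.2.2 ∧
          ∀ s ∈ SS Fs p.1 p.2.1 p.2.2, ¬ Alive x s).card : ℝ) := by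
      rw [hEA, ← Nat.cast_sum]
      exact Nat.cast_le.2 Finset.card_biUnion_le
    refine e1.trans ((Finset.sum_le_card_nsmul _ _ (2 ^ (R * M) * (1 - (1 / 2) ^ R) ^ L)
      ?_).trans (le_of_eq ?_))
    · rintro ⟨j, ρ, v⟩ -
      by_cases hv : v ∈ DD Fs (1 / (4 * K)) j ρ
      · have hv' := hv
        unfold DD at hv'
        rw [mem_filter] at hv'
        refine le_trans ?_ (hit_card hM (SS Fs j ρ v) ρ ((v ρ).1, !(v ρ).2) ?_
          (1 / (4 * K)) (by positivity) hv'.2 L hL)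
        · refine Nat.cast_le.2 (Finset.card_le_card ?_)
          intro x hx
          rw [mem_filter] at hx ⊢
          refine ⟨mem_univ _, ?_, hx.2.2.2⟩
          have := hx.2.2.1
          unfold Killed at this
          revert this
          cases (v ρ).2 <;> cases x (ρ, (v ρ).1) <;> simp
        · intro s hs
          unfold SS at hs
          rw [mem_filter] at hs
          obtain ⟨-, ⟨ho1, ho2⟩, -⟩ := hs
          refine Prod.ext ho1.symm ?_
          revert ho2
          cases (v ρ).2 <;> cases (s ρ).2 <;> simp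
      · simp only [hv, false_and, Finset.filter_false, Finset.card_empty, Nat.cast_zero]
        positivity
    · rw [nsmul_eq_mul, Finset.card_univ, Fintype.card_prod, Fintype.card_prod,
        Fintype.card_fin, Fintype.card_fin, Nat.cast_mul, Nat.cast_mul, card_vtx]
      ring
  have hcB : (EB.card : ℝ) ≤ K * R * (2 ^ (R * M) * Real.exp (-(δ * M) / 8)) := by
    have e1 : (EB.card : ℝ) ≤ ∑ p : Fin K × Fin R,
        ((univ.filter fun x : Asg R M =>
      δ * nn R M ≤ ((DD Fs (1 / (4 * K)) p.1 p.2).card : ℝ) ∧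
      (((DD Fs (1 / (4 * K)) p.1 p.2).filter fun v => Killed x p.2 v).card : ℝ) ≤
        ((DD Fs (1 / (4 * K)) p.1 p.2).card : ℝ) / 8).card : ℝ) := by
      rw [hEB, ← Nat.cast_sum]
      exact Nat.cast_le.2 Finset.card_biUnion_le
    refine e1.trans ((Finset.sum_le_card_nsmul _ _ (2 ^ (R * M) * Real.exp (-(δ * M) / 8))
      ?_).trans (le_of_eq ?_))
    · rintro ⟨j, ρ⟩ -
      by_cases hW : δ * nn R M ≤ ((DD Fs (1 / (4 * K)) j ρ).card : ℝ)
      · refine le_trans ?_ (dev_card hM (DD Fs (1 / (4 * K)) j ρ) ρ δ hW)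
        refine Nat.cast_le.2 (Finset.card_le_card ?_)
        intro x hx
        rw [mem_filter] at hx ⊢
        exact ⟨mem_univ _, hx.2.2⟩
      · simp only [hW, false_and, Finset.filter_false, Finset.card_empty, Nat.cast_zero]
        positivity
    · rw [nsmul_eq_mul, Finset.card_univ, Fintype.card_prod,
        Fintype.card_fin, Fintype.card_fin, Nat.cast_mul]
  have hcC : (EC.card : ℝ) ≤ K * R * (2 ^ (R * M) * Real.exp (-(δ * M) / 8)) := by
    have e1 : (EC.card : ℝ) ≤ ∑ p : Fin K × Fin R,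
        ((univ.filter fun x : Asg R M =>
      δ * nn R M ≤ ((WW Fs (1 / (4 * K)) p.1 p.2).card : ℝ) ∧
      (((WW Fs (1 / (4 * K)) p.1 p.2).filter fun v => Killed x p.2 v).card : ℝ) ≤
        ((WW Fs (1 / (4 * K)) p.1 p.2).card : ℝ) / 8).card : ℝ) := by
      rw [hEC, ← Nat.cast_sum]
      exact Nat.cast_le.2 Finset.card_biUnion_le
    refine e1.trans ((Finset.sum_le_card_nsmul _ _ (2 ^ (R * M) * Real.exp (-(δ * M) / 8))
      ?_).trans (le_of_eq ?_))
    · rintro ⟨j, ρ⟩ -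
      by_cases hW : δ * nn R M ≤ ((WW Fs (1 / (4 * K)) j ρ).card : ℝ)
      · refine le_trans ?_ (dev_card hM (WW Fs (1 / (4 * K)) j ρ) ρ δ hW)
        refine Nat.cast_le.2 (Finset.card_le_card ?_)
        intro x hx
        rw [mem_filter] at hx ⊢
        exact ⟨mem_univ _, hx.2.2⟩
      · simp only [hW, false_and, Finset.filter_false, Finset.card_empty, Nat.cast_zero]
        positivity
    · rw [nsmul_eq_mul, Finset.card_univ, Fintype.card_prod,
        Fintype.card_fin, Fintype.card_fin, Nat.cast_mul]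
  have hsub : (univ.filter fun x : Asg R M => ∃ T : Fin K → Finset (Vtx R M),
      (∀ j, ∀ v ∈ T j, ¬ Alive x v) ∧ (∀ j v v', Fs j v v' → v ∈ T j ∨ v' ∈ T j) ∧
      (∀ j, ((T j).card : ℝ) ≤ ε * nn R M) ∧
      ∑ j, ((T j).card : ℝ) ≤ r * nn R M) ⊆ EA ∪ (EB ∪ EC) := by
    intro x hx
    rw [mem_filter] at hx
    obtain ⟨-, T, hT1, hT2, hT3, hT4⟩ := hx
    by_contra hcon
    rw [mem_union, mem_union] at hcon
    push Not at hcon
    obtain ⟨hA, hB, hC⟩ := hcon
    have := det_core hM hK r ε δ hr hε' hδ hδε hKR Fs hsym hcov x T hT1 hT2 hT3 hT4 (by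
        intro j ρ v hv hk
        by_contra hcon
        push Not at hcon
        apply hA
        rw [hEA, mem_biUnion]
        exact ⟨(j, ρ, v), mem_univ _, by rw [mem_filter]; exact ⟨mem_univ _, hv, hk, hcon⟩⟩) (by
        intro j ρ hW
        by_contra hcon
        push Not at hcon
        apply hB
        rw [hEB, mem_biUnion]
        exact ⟨(j, ρ), mem_univ _, by rw [mem_filter]; exact ⟨mem_univ _, hW, hcon⟩⟩) (by
        intro j ρ hW
        by_contra hcon
        push Not at hcon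
        apply hC
        rw [hEC, mem_biUnion]
        exact ⟨(j, ρ), mem_univ _, by rw [mem_filter]; exact ⟨mem_univ _, hW, hcon⟩⟩)
    nlinarith
  have h1 : ((EA ∪ (EB ∪ EC)).card : ℝ) ≤ EA.card + (EB.card + EC.card) := by
    have a1 := Finset.card_union_le EA (EB ∪ EC)
    have a2 := Finset.card_union_le EB EC
    have : (EA ∪ (EB ∪ EC)).card ≤ EA.card + (EB.card + EC.card) := by omega
    exact_mod_cast this
  refine (Nat.cast_le.2 (Finset.card_le_card hsub)).trans (h1.trans ?_)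
  have : 2 ^ (R * M) * (K * R * nn R M * (1 - (1 / 2) ^ R) ^ L +
      2 * K * R * Real.exp (-(δ * M) / 8)) =
      K * R * nn R M * (2 ^ (R * M) * (1 - (1 / 2) ^ R) ^ L) +
      (K * R * (2 ^ (R * M) * Real.exp (-(δ * M) / 8)) +
      K * R * (2 ^ (R * M) * Real.exp (-(δ * M) / 8))) := by ring
  rw [this]
  exact add_le_add hcA (add_le_add hcB hcC)

end Pool.Agent.Y643.TC
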