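import Pool.Agent.Y643.TC.Defs
import Pool.Agent.Y643.TC.Count

/-!
# The vertices of the co-normal powers of a perfect matching, and random assignments
-/

set_option autoImplicit false

namespace Pool.Agent.Y643.TC

open Finset

/-- assignments of the `R * M` variables -/
abbrev Asg (R M : ℕ) := Fin R × Fin M → Bool

variable {R M : ℕ}

/-- all literals of `v` are true -/
def Alive (x : Asg R M) (v : Vtx R M) : Prop := ∀ ρ, x (ρ, (v ρ).1) = (v ρ).2

/-- the literal number `ρ` of `v` is false -/
def Killed (x : Asg R M) (ρ : Fin R) (v : Vtx R M) : Prop := x (ρ, (v ρ).1) ≠ (v ρ).2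

/-- the number of vertices -/
noncomputable def nn (R M : ℕ) : ℝ := (2 * M : ℝ) ^ R

theorem nn_pos (hM : 0 < M) : 0 < nn R M := by unfold nn; positivity

theorem card_vtx : (Fintype.card (Vtx R M) : ℝ) = nn R M := by
  simp [nn, mul_comm]

theorem card_box (hM : 0 < M) (t : Fin R → Finset (Fin M × Bool)) :
    ((Fintype.piFinset t).card : ℝ) = nn R M * ∏ i, ((t i).card / (2 * M : ℝ)) := by
  rw [Fintype.card_piFinset, Nat.cast_prod, nn, Finset.prod_div_distrib, Finset.prod_const,
    Finset.card_univ, Fintype.card_fin]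
  field_simp

open Classical in
theorem box1 (hM : 0 < M) (ρ : Fin R) (A : Finset (Fin M × Bool)) :
    ((univ.filter fun v : Vtx R M => v ρ ∈ A).card : ℝ) = nn R M * (A.card / (2 * M : ℝ)) := by
  have h : (univ.filter fun v : Vtx R M => v ρ ∈ A) =
      Fintype.piFinset fun i => if i = ρ then A else univ := by
    ext v
    simp only [mem_filter, mem_univ, true_and, Fintype.mem_piFinset]
    constructor
    · intro h i
      by_cases hi : i = ρ
      · subst hi
        simpa using h
      · simp [hi]
    · intro h
      simpa using h ρ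
  rw [h, card_box hM, Finset.prod_eq_single ρ]
  · simp
  · intro i _ hi
    have : (2 * M : ℝ) ≠ 0 := by positivity
    simp only [hi, if_false, Finset.card_univ, Fintype.card_prod, Fintype.card_fin,
      Fintype.card_bool, Nat.cast_mul, Nat.cast_ofNat]
    rw [mul_comm, div_self this]
  · simp

open Classical in
theorem box2 (hM : 0 < M) {ρ ρ' : Fin R} (hρ : ρ ≠ ρ') (A B : Finset (Fin M × Bool)) :
    ((univ.filter fun v : Vtx R M => v ρ ∈ A ∧ v ρ' ∈ B).card : ℝ) =
      nn R M * ((A.card / (2 * M : ℝ)) * (B.card / (2 * M : ℝ))) := by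
  have h : (univ.filter fun v : Vtx R M => v ρ ∈ A ∧ v ρ' ∈ B) =
      Fintype.piFinset fun i => if i = ρ then A else if i = ρ' then B else univ := by
    ext v
    simp only [mem_filter, mem_univ, true_and, Fintype.mem_piFinset]
    constructor
    · intro h i
      by_cases hi : i = ρ
      · subst hi
        simpa using h.1
      · by_cases hi' : i = ρ'
        · subst hi'
          simpa [hi] using h.2
        · simp [hi, hi']
    · intro h
      exact ⟨by simpa using h ρ, by simpa [hρ.symm] using h ρ'⟩
  rw [h, card_box hM, Finset.prod_eq_mul ρ ρ' hρ]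
  · simp [hρ.symm]
  · intro i _ hi
    have : (2 * M : ℝ) ≠ 0 := by positivity
    simp only [hi.1, hi.2, if_false, Finset.card_univ, Fintype.card_prod, Fintype.card_fin,
      Fintype.card_bool, Nat.cast_mul, Nat.cast_ofNat]
    rw [mul_comm, div_self this]
  · simp
  · simp

open Classical in
/-- the vertices with a given literal -/
theorem side_card (hM : 0 < M) (ρ : Fin R) (l : Fin M × Bool) :
    ((univ.filter fun v : Vtx R M => v ρ = l).card : ℝ) = nn R M / (2 * M) := by
  have := box1 hM ρ {l}
  simp only [mem_singleton, card_singleton, Nat.cast_one] at this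
  rw [this]
  ring

open Classical in
/-- greedy choice of elements with distinct variables -/
theorem exists_list (hM : 0 < M) (S : Finset (Vtx R M)) (ρ : Fin R) (l : Fin M × Bool)
    (hS : ∀ s ∈ S, s ρ = l) (δ : ℝ) (hδ : 0 < δ) (hcard : δ * (nn R M / (2 * M)) ≤ S.card)
    (L : ℕ) (hL : (R : ℝ) * L ≤ δ * M) :
    ∃ P : List (Vtx R M), P.length = L ∧ (∀ s ∈ P, s ∈ S) ∧
      P.Pairwise fun s s' => ∀ ρ', ρ' ≠ ρ → (s ρ').1 ≠ (s' ρ').1 := by
  induction L with
  | zero => exact ⟨[], rfl, by simp, List.Pairwise.nil⟩
  | succ L ih =>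
    have hMR : (0 : ℝ) < M := by exact_mod_cast hM
    have hn := nn_pos (R := R) hM
    obtain ⟨P, h1, h2, h3⟩ := ih (by
      push_cast at hL
      have : (0 : ℝ) ≤ R := by positivity
      nlinarith)
    obtain ⟨Bl, hBl⟩ : ∃ Bl : Finset (Vtx R M), Bl =
      (univ.filter fun ρ' : Fin R => ρ' ≠ ρ).biUnion fun ρ' =>
      P.toFinset.biUnion fun s => univ.filter fun v : Vtx R M => v ρ ∈ ({l} : Finset _) ∧
        v ρ' ∈ ({((s ρ').1, false), ((s ρ').1, true)} : Finset _) := ⟨_, rfl⟩
    have hcB : (Bl.card : ℝ) ≤ R * L * (nn R M / (2 * M) / M) := by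
      have e1 : (Bl.card : ℝ) ≤ ∑ ρ' ∈ univ.filter (fun ρ' : Fin R => ρ' ≠ ρ),
          ∑ s ∈ P.toFinset, (nn R M / (2 * M) / M) := by
        have := Finset.card_biUnion_le (s := univ.filter fun ρ' : Fin R => ρ' ≠ ρ)
          (t := fun ρ' => P.toFinset.biUnion fun s => univ.filter fun v : Vtx R M =>
            v ρ ∈ ({l} : Finset _) ∧
            v ρ' ∈ ({((s ρ').1, false), ((s ρ').1, true)} : Finset _))
        rw [hBl]
        refine le_trans (Nat.cast_le.2 this) ?_
        rw [Nat.cast_sum]
        refine Finset.sum_le_sum fun ρ' hρ' => ?_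
        have := Finset.card_biUnion_le (s := P.toFinset)
          (t := fun s => univ.filter fun v : Vtx R M => v ρ ∈ ({l} : Finset _) ∧
            v ρ' ∈ ({((s ρ').1, false), ((s ρ').1, true)} : Finset _))
        refine le_trans (Nat.cast_le.2 this) ?_
        rw [Nat.cast_sum]
        refine Finset.sum_le_sum fun s _ => ?_
        rw [mem_filter] at hρ'
        rw [box2 hM (Ne.symm hρ'.2)]
        have : (({((s ρ').1, false), ((s ρ').1, true)} : Finset (Fin M × Bool)).card : ℝ) = 2 := by
          rw [Finset.card_pair (by simp)]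
          norm_num
        rw [this, card_singleton]
        apply le_of_eq
        push_cast
        field_simp
      refine e1.trans ?_
      rw [Finset.sum_const, Finset.sum_const, nsmul_eq_mul, nsmul_eq_mul, ← mul_assoc]
      have c1 : ((univ.filter fun ρ' : Fin R => ρ' ≠ ρ).card : ℝ) ≤ R := by
        have := Finset.card_filter_le (univ : Finset (Fin R)) (fun ρ' => ρ' ≠ ρ)
        rw [Finset.card_univ, Fintype.card_fin] at this
        exact_mod_cast this
      have c2 : (P.toFinset.card : ℝ) ≤ L := by
        have := List.toFinset_card_le P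
        rw [h1] at this
        exact_mod_cast this
      gcongr
    have hlt : Bl.card < S.card := by
      have : (Bl.card : ℝ) < S.card := by
        refine lt_of_le_of_lt hcB (lt_of_lt_of_le ?_ hcard)
        have h4 : (R : ℝ) * L < δ * M := by
          push_cast at hL
          have hR : 0 < R := by
            rcases Nat.eq_zero_or_pos R with h | h
            · subst h
              exact ρ.elim0
            · exact h
          have : (1 : ℝ) ≤ R := by exact_mod_cast hR
          linarith
        have h5 : 0 < nn R M / (2 * M) / M := by positivity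
        calc (R : ℝ) * L * (nn R M / (2 * M) / M) < δ * M * (nn R M / (2 * M) / M) := by
              gcongr
          _ = δ * (nn R M / (2 * M)) := by field_simp
      exact_mod_cast this
    obtain ⟨s, hs, hsB⟩ : ∃ s ∈ S, s ∉ Bl := by
      by_contra hcon
      push Not at hcon
      exact absurd (Finset.card_le_card hcon) (by omega)
    refine ⟨s :: P, by simp [h1], ?_, ?_⟩
    · intro s' hs'
      rw [List.mem_cons] at hs'
      rcases hs' with rfl | hs'
      · exact hs
      · exact h2 s' hs'
    · rw [List.pairwise_cons]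
      refine ⟨fun s' hs' ρ' hρ' heq => hsB ?_, h3⟩
      rw [hBl, mem_biUnion]
      refine ⟨ρ', by simp [hρ'], ?_⟩
      rw [mem_biUnion]
      refine ⟨s', by simpa using hs', ?_⟩
      rw [mem_filter]
      refine ⟨mem_univ _, by simp [hS s hs], ?_⟩
      rw [← heq]
      rcases hb : (s ρ').2 with _ | _
      · simp [Prod.ext_iff, hb]
      · simp [Prod.ext_iff, hb]

open Classical in
/-- A dense set of vertices with the same literal at the place `ρ` is hit by almost all
assignments for which this literal is true. -/
theorem hit_card (hM : 0 < M) (S : Finset (Vtx R M)) (ρ : Fin R) (l : Fin M × Bool)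
    (hS : ∀ s ∈ S, s ρ = l) (δ : ℝ) (hδ : 0 < δ) (hcard : δ * (nn R M / (2 * M)) ≤ S.card)
    (L : ℕ) (hL : (R : ℝ) * L ≤ δ * M) :
    ((univ.filter fun x : Asg R M => x (ρ, l.1) = l.2 ∧ ∀ s ∈ S, ¬ Alive x s).card : ℝ) ≤
      2 ^ (R * M) * (1 - (1 / 2) ^ R) ^ L := by
  obtain ⟨P, h1, h2, h3⟩ := exists_list hM S ρ l hS δ hδ hcard L hL
  set pat : Vtx R M → Finset (Fin R × Fin M) × (Fin R × Fin M → Bool) := fun s =>
    ((univ.filter fun ρ' : Fin R => ρ' ≠ ρ).image fun ρ' => (ρ', (s ρ').1),
      fun i => (s i.1).2) with hpat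
  have h4 := avoid_card (ι := Fin R × Fin M) R (P.map pat) (by
      rw [List.pairwise_map]
      refine h3.imp ?_
      intro s s' hss
      rw [Finset.disjoint_left]
      rintro ⟨a, b⟩ ha hb
      simp only [hpat, mem_image, mem_filter, mem_univ, true_and, Prod.mk.injEq] at ha hb
      obtain ⟨c, hc, rfl, rfl⟩ := ha
      obtain ⟨c', hc', rfl, hcc⟩ := hb
      exact hss c' hc' hcc.symm) (by
      intro p hp
      rw [List.mem_map] at hp
      obtain ⟨s, _, rfl⟩ := hp
      refine (Finset.card_image_le).trans ?_
      refine (Finset.card_filter_le _ _).trans ?_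
      simp)
  rw [List.length_map, h1, Fintype.card_prod, Fintype.card_fin, Fintype.card_fin] at h4
  refine le_trans ?_ h4
  refine Nat.cast_le.2 (Finset.card_le_card ?_)
  intro x hx
  simp only [mem_filter, mem_univ, true_and] at hx ⊢
  intro p hp
  rw [List.mem_map] at hp
  obtain ⟨s, hs, rfl⟩ := hp
  have h5 := hx.2 s (h2 s hs)
  unfold Alive at h5
  push Not at h5
  obtain ⟨ρ', hρ'⟩ := h5
  have hne : ρ' ≠ ρ := by
    rintro rfl
    apply hρ'
    rw [hS s (h2 s hs)]
    exact hx.1
  refine ⟨(ρ', (s ρ').1), ?_, hρ'⟩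
  simp only [hpat, mem_image, mem_filter, mem_univ, true_and]
  exact ⟨ρ', hne, rfl⟩

open Classical in
/-- Almost all assignments kill, at the place `ρ`, at least one eighth of a large set. -/
theorem dev_card (hM : 0 < M) (W : Finset (Vtx R M)) (ρ : Fin R) (δ : ℝ)
    (hW : δ * nn R M ≤ W.card) :
    ((univ.filter fun x : Asg R M =>
      ((W.filter fun v => Killed x ρ v).card : ℝ) ≤ W.card / 8).card : ℝ) ≤
      2 ^ (R * M) * Real.exp (-(δ * M) / 8) := by
  have hMR : (0 : ℝ) < M := by exact_mod_cast hM
  have hn := nn_pos (R := R) hM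
  set t : Fin R × Fin M → Bool → ℝ := fun i b =>
    if i.1 = ρ then ((W.filter fun v => v ρ = (i.2, !b)).card : ℝ) * (M / nn R M) else 0 with ht
  have hfib : ∀ f : Fin M → Bool,
      ∑ i : Fin R × Fin M, (if i.1 = ρ then
        ((W.filter fun v => v ρ = (i.2, f i.2)).card : ℝ) * (M / nn R M) else 0) =
      ((W.filter fun v => (v ρ).2 = f (v ρ).1).card : ℝ) * (M / nn R M) := by
    intro f
    rw [Fintype.sum_prod_type]
    simp only
    rw [Finset.sum_comm]
    simp only [Finset.sum_ite_eq', mem_univ, if_true]
    rw [← Finset.sum_mul]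
    congr 1
    rw [Finset.card_eq_sum_card_fiberwise (f := fun v => (v ρ).1) (t := univ)
      (fun _ _ => Finset.mem_coe.2 (mem_univ _))]
    push_cast
    refine Finset.sum_congr rfl fun u _ => ?_
    congr 1
    rw [Finset.filter_filter]
    congr 1
    ext v
    simp only [mem_filter]
    constructor
    · rintro ⟨h1, h2⟩
      rw [h2]
      exact ⟨h1, rfl, rfl⟩
    · rintro ⟨h1, h2, h3⟩
      refine ⟨h1, ?_⟩
      rw [← h3, ← h2]
  have h0 : ∀ i b, 0 ≤ t i b := by
    intro i b
    simp only [ht]
    split_ifs <;> positivity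
  have h1 : ∀ i, t i false + t i true ≤ 1 := by
    intro i
    simp only [ht]
    split_ifs
    · rw [← add_mul]
      have e1 : ((W.filter fun v => v ρ = (i.2, !false)).card : ℝ) ≤ nn R M / (2 * M) := by
        rw [← side_card hM ρ (i.2, !false)]
        exact_mod_cast Finset.card_le_card (Finset.filter_subset_filter _ (Finset.subset_univ _))
      have e2 : ((W.filter fun v => v ρ = (i.2, !true)).card : ℝ) ≤ nn R M / (2 * M) := by
        rw [← side_card hM ρ (i.2, !true)]
        exact_mod_cast Finset.card_le_card (Finset.filter_subset_filter _ (Finset.subset_univ _))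
      calc _ ≤ (nn R M / (2 * M) + nn R M / (2 * M)) * (M / nn R M) := by gcongr
        _ = 1 := by field_simp; norm_num
    · norm_num
  have hsum : ∑ i, (t i false + t i true) = W.card * (M / nn R M) := by
    rw [Finset.sum_add_distrib]
    have e1 := hfib fun _ => !false
    have e2 := hfib fun _ => !true
    simp only [ht]
    rw [e1, e2, ← add_mul]
    congr 1
    have : W.card = (W.filter fun v => (v ρ).2 = true).card +
        (W.filter fun v => (v ρ).2 = false).card := by
      rw [← Finset.card_filter_add_card_filter_not (s := W) (fun v => (v ρ).2 = true)]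
      simp
    rw [this]
    simp
  have h2 := chernoff t h0 h1
  rw [hsum, Fintype.card_prod, Fintype.card_fin, Fintype.card_fin] at h2
  have h3 : ((univ.filter fun x : Asg R M =>
      ((W.filter fun v => Killed x ρ v).card : ℝ) ≤ W.card / 8).card : ℝ) ≤
      ((univ.filter fun x : Asg R M => ∑ i, t i (x i) ≤ W.card * (M / nn R M) / 8).card : ℝ) := by
    refine Nat.cast_le.2 (Finset.card_le_card ?_)
    intro x hx
    simp only [mem_filter, mem_univ, true_and] at hx ⊢
    have e : ∑ i, t i (x i) = ((W.filter fun v => Killed x ρ v).card : ℝ) * (M / nn R M) := by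
      have := hfib fun u => !(x (ρ, u))
      rw [show (W.filter fun v => Killed x ρ v) =
        (W.filter fun v => (v ρ).2 = !(x (ρ, (v ρ).1))) from ?_, ← this]
      · refine Finset.sum_congr rfl fun i _ => ?_
        simp only [ht]
        by_cases hi : i.1 = ρ
        · subst hi
          simp
        · simp [hi]
      · ext v
        rw [mem_filter, mem_filter]
        refine and_congr_right fun _ => ?_
        unfold Killed
        cases (v ρ).2 <;> cases x (ρ, (v ρ).1) <;> simp
    rw [e]
    have h4 : (0 : ℝ) ≤ M / nn R M := by positivity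
    calc ((W.filter fun v => Killed x ρ v).card : ℝ) * (M / nn R M)
        ≤ (W.card / 8) * (M / nn R M) := by gcongr
      _ = W.card * (M / nn R M) / 8 := by ring
  refine h3.trans (h2.trans ?_)
  have : δ * M ≤ W.card * (M / nn R M) := by
    calc δ * M = δ * nn R M * (M / nn R M) := by field_simp
      _ ≤ W.card * (M / nn R M) := by gcongr
  exact mul_le_mul_of_nonneg_left (Real.exp_le_exp.2 (by linarith)) (by positivity)

end Pool.Agent.Y643.TC
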