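import Pool.Agent.Y643.TC.Prog
import Pool.Agent.Y643.TC.Exc

/-!
# (min, +) programs approximating weighted vertex cover
-/

set_option autoImplicit false
set_option linter.unusedSectionVars false

namespace Pool.Agent.Y643.TC

open Finset

section general

variable {V : Type} [Fintype V] [DecidableEq V] {L : Set ((V → ℝ) → ℝ)}

theorem optVC_le (G : SimpleGraph V) (w : V → ℝ) (C : Finset V)
    (hC : G.IsVertexCover (C : Set V)) : optVC G w ≤ ∑ v ∈ C, w v :=
  ciInf_le (Set.finite_range _).bddBelow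
    (⟨C, hC⟩ : {C : Finset V // G.IsVertexCover (C : Set V)})

theorem exists_optVC (G : SimpleGraph V) (w : V → ℝ) :
    ∃ C : Finset V, G.IsVertexCover (C : Set V) ∧ ∑ v ∈ C, w v = optVC G w := by
  have : Nonempty {C : Finset V // G.IsVertexCover (C : Set V)} :=
    ⟨⟨univ, fun a b _ => Or.inl (by simp)⟩⟩
  obtain ⟨C, hC⟩ := exists_eq_ciInf_of_finite
    (f := fun C : {C : Finset V // G.IsVertexCover (C : Set V)} => ∑ v ∈ C.1, w v)
  exact ⟨C.1, C.2, hC⟩

/-- the parse trees of an approximating function give covers -/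
theorem root_cover {G : SimpleGraph V} {r : ℝ} {f : (V → ℝ) → ℝ} (hf : Approx G r f)
    (a b : V) (hab : G.Adj a b) : Cert {y | Prod L f y} (a, b) := by
  intro y hy
  by_contra hcon
  push Not at hcon
  obtain ⟨h1, h2⟩ := hcon
  obtain ⟨c, hc, hle⟩ := Prod.le (show Prod L f y from hy)
  set w : V → ℝ := fun v => if v = a ∨ v = b then c + 1 else 0 with hw
  have hw0 : ∀ v, 0 ≤ w v := by
    intro v
    simp only [hw]
    split_ifs
    · linarith
    · exact le_rfl
  obtain ⟨C, hC, hCw⟩ := exists_optVC G w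
  have h3 := (hf w hw0).1
  have h4 := hle w
  have h5 : ∑ v, (y v : ℝ) * w v = 0 := by
    refine Finset.sum_eq_zero fun v _ => ?_
    simp only [hw]
    split_ifs with h
    · rcases h with rfl | rfl
      · simp [h1]
      · simp [h2]
    · simp
  have h6 : c + 1 ≤ ∑ v ∈ C, w v := by
    rcases hC hab with h | h
    · refine le_trans ?_ (Finset.single_le_sum (fun v _ => hw0 v) h)
      simp [hw]
    · refine le_trans ?_ (Finset.single_le_sum (fun v _ => hw0 v) h)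
      simp [hw]
  linarith

/-- padding a list of pieces -/
theorem pad (P : List (Set (V → ℕ) × (V → ℕ))) (K : ℕ) (hP : P.length ≤ K) :
    ∃ z : Fin K → Set (V → ℕ) × (V → ℕ), (∀ j, z j ∈ P ∨ z j = ({0}, 0)) ∧
      (∀ p ∈ P, ∃ j, z j = p) ∧ ∑ j, (z j).2 = (P.map Prod.snd).sum := by
  obtain ⟨P', hlen, h1, h2, h3⟩ : ∃ P' : List (Set (V → ℕ) × (V → ℕ)), P'.length = K ∧
      (∀ p ∈ P', p ∈ P ∨ p = ({0}, 0)) ∧ (∀ p ∈ P, p ∈ P') ∧
      (P'.map Prod.snd).sum = (P.map Prod.snd).sum := by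
    refine ⟨P ++ List.replicate (K - P.length) ({0}, 0), ?_, ?_, ?_, ?_⟩
    · simp only [List.length_append, List.length_replicate]
      omega
    · intro p hp
      rw [List.mem_append] at hp
      rcases hp with hp | hp
      · exact Or.inl hp
      · exact Or.inr (List.eq_of_mem_replicate hp)
    · intro p hp
      exact List.mem_append_left _ hp
    · simp
  subst hlen
  refine ⟨fun j => P'[j.1], ?_, ?_, ?_⟩
  · intro j
    exact h1 _ (List.getElem_mem _)
  · intro p hp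
    obtain ⟨i, hi, rfl⟩ := List.mem_iff_getElem.1 (h2 p hp)
    exact ⟨⟨i, hi⟩, rfl⟩
  · rw [← h3]
    exact Fin.sum_univ_fun_getElem P' Prod.snd

/-- indexing of the sets of pieces -/
def pc (L : Finset ((V → ℝ) → ℝ)) : Option (L ⊕ L × L) → Set (V → ℕ)
  | none => {0}
  | some (Sum.inl g) => {x | Prod (L : Set ((V → ℝ) → ℝ)) g.1 x}
  | some (Sum.inr (g, h)) => {x | Ctx (L : Set ((V → ℝ) → ℝ)) g.1 h.1 x}

theorem exists_pc (L : Finset ((V → ℝ) → ℝ)) {Z : Set (V → ℕ)}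
    (hZ : Z ∈ Pieces (L : Set ((V → ℝ) → ℝ))) : ∃ i, pc L i = Z := by
  rcases hZ with ⟨g, hg, rfl⟩ | ⟨g, hg, h, hh, rfl⟩
  · exact ⟨some (Sum.inl ⟨g, hg⟩), rfl⟩
  · exact ⟨some (Sum.inr (⟨g, hg⟩, ⟨h, hh⟩)), rfl⟩

end general

section main

variable {R M : ℕ}

open Classical in
/-- the assignment `x` is served by the tuple `t` of pieces -/
def Served (L : Finset ((Vtx R M → ℝ) → ℝ)) (r ε : ℝ) {K : ℕ}
    (t : Fin K → Option (L ⊕ L × L)) (x : Asg R M) : Prop :=
  (∀ (ρ : Fin R) (v v' : Vtx R M), Opp ρ v v' → ∃ j, Cert (pc L (t j)) (v, v')) ∧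
  ∃ T : Fin K → Finset (Vtx R M), (∀ j, ∀ v ∈ T j, ¬ Alive x v) ∧
    (∀ j v v', Cert (pc L (t j)) (v, v') → v ∈ T j ∨ v' ∈ T j) ∧
    (∀ j, ((T j).card : ℝ) ≤ ε * nn R M) ∧ ∑ j, ((T j).card : ℝ) ≤ r * nn R M

open Classical in
theorem served (hM : 0 < M) (r ε : ℝ) (hr : 1 ≤ r) (L : Finset ((Vtx R M → ℝ) → ℝ))
    (f : (Vtx R M → ℝ) → ℝ) (hfL : f ∈ L)
    (hL : ∀ w, ∃ y, Prod (L : Set ((Vtx R M → ℝ) → ℝ)) f y ∧ ∑ v, (y v : ℝ) * w v ≤ f w)
    (hf : Approx (conorm R M) r f) (θ k : ℕ) (hθ : 1 ≤ θ) (hθε : (θ : ℝ) ≤ ε * nn R M)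
    (hk : r * nn R M ≤ θ * 2 ^ k) (x : Asg R M) :
    ∃ t : Fin (5 ^ k) → Option (L ⊕ L × L), Served L r ε t x := by
  have hn := nn_pos (R := R) hM
  set w : Vtx R M → ℝ := fun v => if Alive x v then r * nn R M + 1 else 1 with hw
  have hw1 : ∀ v, 1 ≤ w v := by
    intro v
    simp only [hw]
    split_ifs
    · have : 0 < r * nn R M := by positivity
      linarith
    · exact le_rfl
  have hw0 : ∀ v, 0 ≤ w v := fun v => zero_le_one.trans (hw1 v)
  obtain ⟨y, hy, hyle⟩ := hL w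
  have hcov : (conorm R M).IsVertexCover
      ((univ.filter fun v : Vtx R M => ¬ Alive x v : Finset (Vtx R M)) : Set (Vtx R M)) := by
    rintro v v' ⟨ρ, h1, h2⟩
    by_contra hcon
    push Not at hcon
    simp only [coe_filter, mem_univ, true_and, Set.mem_setOf_eq, not_not] at hcon
    apply h2
    rw [← hcon.1 ρ, ← hcon.2 ρ, h1]
  have hfw : f w ≤ r * nn R M := by
    refine ((hf w hw0).2).trans ?_
    have h1 := optVC_le (conorm R M) w _ hcov
    have h2 : ∑ v ∈ univ.filter (fun v : Vtx R M => ¬ Alive x v), w v ≤ nn R M := by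
      have h3 : ∀ v ∈ univ.filter (fun v : Vtx R M => ¬ Alive x v), w v = 1 := by
        intro v hv
        rw [mem_filter] at hv
        simp only [hw]
        rw [if_neg hv.2]
      rw [Finset.sum_congr rfl h3, Finset.sum_const, nsmul_eq_mul, mul_one, ← card_vtx]
      exact Nat.cast_le.2 ((Finset.card_filter_le _ _).trans (le_of_eq Finset.card_univ))
    have : optVC (conorm R M) w ≤ nn R M := h1.trans h2
    gcongr
  have hyn : (nrm y : ℝ) ≤ r * nn R M := by
    refine le_trans ?_ (hyle.trans hfw)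
    unfold nrm
    push_cast
    refine Finset.sum_le_sum fun v _ => ?_
    have := hw1 v
    have h0 : (0 : ℝ) ≤ y v := Nat.cast_nonneg _
    nlinarith
  have hy0 : ∀ v, Alive x v → y v = 0 := by
    intro v hv
    by_contra hne
    have h1 : (1 : ℝ) ≤ y v := by exact_mod_cast Nat.one_le_iff_ne_zero.2 hne
    have h2 : (y v : ℝ) * w v ≤ ∑ v, (y v : ℝ) * w v :=
      Finset.single_le_sum (f := fun v => (y v : ℝ) * w v)
        (fun v _ => mul_nonneg (Nat.cast_nonneg _) (hw0 v)) (mem_univ v)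
    have h3 : w v = r * nn R M + 1 := by
      simp only [hw]
      rw [if_pos hv]
    rw [h3] at h2
    have h4 : 0 < r * nn R M := by positivity
    nlinarith
  obtain ⟨P, hP, hD⟩ := (decompose (L := (L : Set ((Vtx R M → ℝ) → ℝ))) hθ k).2 f y hfL hy (by
    have : (nrm y : ℝ) ≤ ((θ * 2 ^ k : ℕ) : ℝ) := by
      push_cast
      exact hyn.trans hk
    exact_mod_cast this)
  obtain ⟨z, hz1, hz2, hz3⟩ := pad P (5 ^ k) hP
  rw [hD.2.1] at hz3
  have hpiece : ∀ j, ∃ i, pc L i = (z j).1 := by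
    intro j
    rcases hz1 j with h | h
    · exact exists_pc L (hD.1 _ h).1
    · exact ⟨none, by rw [h]; rfl⟩
  choose t ht using hpiece
  have hmem : ∀ j, (z j).2 ∈ (z j).1 := by
    intro j
    rcases hz1 j with h | h
    · exact (hD.1 _ h).2.1
    · rw [h]
      rfl
  have hnrm : ∀ j, nrm (z j).2 ≤ θ := by
    intro j
    rcases hz1 j with h | h
    · exact (hD.1 _ h).2.2
    · rw [h]
      simp [nrm_zero]
  have hcard : ∀ j, (univ.filter fun v => (z j).2 v ≠ 0).card ≤ nrm (z j).2 := by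
    intro j
    rw [Finset.card_filter]
    unfold nrm
    refine Finset.sum_le_sum fun v _ => ?_
    split_ifs with h
    · omega
    · omega
  refine ⟨t, ?_, fun j => univ.filter fun v => (z j).2 v ≠ 0, ?_, ?_, ?_, ?_⟩
  · intro ρ v v' ho
    have := root_cover (L := (L : Set ((Vtx R M → ℝ) → ℝ))) hf v v' ⟨ρ, ho⟩
    obtain ⟨p, hp, hc⟩ := hD.2.2 _ this
    obtain ⟨j, hj⟩ := hz2 p hp
    refine ⟨j, ?_⟩
    rw [ht j, hj]
    exact hc
  · intro j v hv hal
    rw [mem_filter] at hv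
    apply hv.2
    have h1 := hy0 v hal
    rw [← hz3, Finset.sum_apply] at h1
    exact Finset.sum_eq_zero_iff.1 h1 j (mem_univ j)
  · intro j v v' hc
    have := hc ((z j).2) (by rw [ht j]; exact hmem j)
    simpa using this
  · intro j
    refine le_trans ?_ hθε
    exact Nat.cast_le.2 ((hcard j).trans (hnrm j))
  · refine le_trans ?_ hyn
    rw [← Nat.cast_sum]
    refine Nat.cast_le.2 ((Finset.sum_le_sum fun j _ => hcard j).trans (le_of_eq ?_))
    rw [← hz3]
    unfold nrm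
    simp only [Finset.sum_apply]
    rw [Finset.sum_comm]

open Classical in
theorem count_bound (hM : 0 < M) (r ε δ : ℝ) (hr : 1 ≤ r) (hR : 1000 * r ^ 2 ≤ R)
    (hε' : 576 * ε * (R : ℝ) ^ 2 ≤ 1) (hδ : 0 < δ) (hδε : δ ≤ 8 * ε)
    (L : Finset ((Vtx R M → ℝ) → ℝ))
    (f : (Vtx R M → ℝ) → ℝ) (hfL : f ∈ L)
    (hL : ∀ w, ∃ y, Prod (L : Set ((Vtx R M → ℝ) → ℝ)) f y ∧ ∑ v, (y v : ℝ) * w v ≤ f w)
    (hf : Approx (conorm R M) r f) (θ k : ℕ) (hθ : 1 ≤ θ) (hθε : (θ : ℝ) ≤ ε * nn R M)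
    (hk : r * nn R M ≤ θ * 2 ^ k) (hKR : ((5 ^ k : ℕ) : ℝ) * R * δ ≤ r)
    (L' : ℕ) (hL' : (R : ℝ) * L' ≤ 1 / (4 * ((5 ^ k : ℕ) : ℝ)) * M) :
    1 ≤ ((L.card : ℝ) + 1) ^ (2 * 5 ^ k) *
      (((5 ^ k : ℕ) : ℝ) * R * nn R M * (1 - (1 / 2) ^ R) ^ L' +
        2 * ((5 ^ k : ℕ) : ℝ) * R * Real.exp (-(δ * M) / 8)) := by
  have hB : ∀ t : Fin (5 ^ k) → Option (L ⊕ L × L),
      ((univ.filter fun x : Asg R M => Served L r ε t x).card : ℝ) ≤
      2 ^ (R * M) * (((5 ^ k : ℕ) : ℝ) * R * nn R M * (1 - (1 / 2) ^ R) ^ L' +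
        2 * ((5 ^ k : ℕ) : ℝ) * R * Real.exp (-(δ * M) / 8)) := by
    intro t
    by_cases hcov : ∀ (ρ : Fin R) (v v' : Vtx R M), Opp ρ v v' →
        ∃ j, Cert (pc L (t j)) (v, v')
    · refine le_trans ?_ (core hM (by positivity) r ε δ hr hR hε' hδ hδε hKR L' hL'
        (fun j v v' => Cert (pc L (t j)) (v, v')) ?_ hcov)
      · refine Nat.cast_le.2 (Finset.card_le_card ?_)
        intro x hx
        rw [mem_filter] at hx ⊢
        exact ⟨mem_univ _, hx.2.2⟩
      · intro j v v' h z hz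
        exact (h z hz).symm
    · have : (univ.filter fun x : Asg R M => Served L r ε t x) = ∅ := by
        rw [Finset.filter_eq_empty_iff]
        intro x _ hx
        exact hcov hx.1
      rw [this, Finset.card_empty, Nat.cast_zero]
      have hn := nn_pos (R := R) hM
      have : (0 : ℝ) ≤ (1 - (1 / 2) ^ R) ^ L' := by
        apply pow_nonneg
        have : ((1 : ℝ) / 2) ^ R ≤ 1 := pow_le_one₀ (by norm_num) (by norm_num)
        linarith
      positivity
  have h1 : ((2 : ℝ) ^ (R * M)) ≤ ∑ t : Fin (5 ^ k) → Option (L ⊕ L × L),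
      ((univ.filter fun x : Asg R M => Served L r ε t x).card : ℝ) := by
    have h2 : (univ : Finset (Asg R M)) ⊆
        (univ : Finset (Fin (5 ^ k) → Option (L ⊕ L × L))).biUnion fun t =>
          univ.filter fun x : Asg R M => Served L r ε t x := by
      intro x _
      obtain ⟨t, ht⟩ := served hM r ε hr L f hfL hL hf θ k hθ hθε hk x
      rw [mem_biUnion]
      exact ⟨t, mem_univ _, by rw [mem_filter]; exact ⟨mem_univ _, ht⟩⟩
    have h3 := (Finset.card_le_card h2).trans Finset.card_biUnion_le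
    have h4 : ((univ : Finset (Asg R M)).card : ℝ) = 2 ^ (R * M) := by
      rw [Finset.card_univ]
      simp
    rw [← h4, ← Nat.cast_sum]
    exact Nat.cast_le.2 h3
  have h5 : ((Fintype.card (Fin (5 ^ k) → Option (L ⊕ L × L)) : ℕ) : ℝ) ≤
      ((L.card : ℝ) + 1) ^ (2 * 5 ^ k) := by
    rw [Fintype.card_fun, Fintype.card_option, Fintype.card_sum, Fintype.card_prod,
      Fintype.card_coe, Fintype.card_fin, pow_mul]
    push_cast
    gcongr
    have : (0 : ℝ) ≤ L.card := Nat.cast_nonneg _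
    nlinarith
  have h6 := h1.trans (Finset.sum_le_card_nsmul _ _ _ fun t _ => hB t)
  rw [nsmul_eq_mul, Finset.card_univ] at h6
  have hn := nn_pos (R := R) hM
  have hp0 : (0 : ℝ) ≤ (1 - (1 / 2) ^ R) ^ L' := by
    apply pow_nonneg
    have : ((1 : ℝ) / 2) ^ R ≤ 1 := pow_le_one₀ (by norm_num) (by norm_num)
    linarith
  have h7 : (2 : ℝ) ^ (R * M) * 1 ≤ 2 ^ (R * M) * (((L.card : ℝ) + 1) ^ (2 * 5 ^ k) *
      (((5 ^ k : ℕ) : ℝ) * R * nn R M * (1 - (1 / 2) ^ R) ^ L' +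
        2 * ((5 ^ k : ℕ) : ℝ) * R * Real.exp (-(δ * M) / 8))) := by
    rw [mul_one]
    refine h6.trans ?_
    rw [mul_left_comm]
    gcongr
  exact le_of_mul_le_mul_left h7 (by positivity)

end main

end Pool.Agent.Y643.TC
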