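import Pool.Agent.Y643.TC.Defs

/-!
# (min, +) programs, the vectors they produce, and balanced decompositions
-/

set_option autoImplicit false
set_option linter.unusedSectionVars false

namespace Pool.Agent.Y643.TC

open Finset

variable {V : Type}

section

variable [DecidableEq V]

/-- `y` is the vector of multiplicities of a parse tree with root `f` -/
inductive Prod (L : Set ((V → ℝ) → ℝ)) : ((V → ℝ) → ℝ) → (V → ℕ) → Prop
  | var (v : V) : Prod L (fun w => w v) (Pi.single v 1)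
  | const (c : ℝ) (hc : 0 ≤ c) : Prod L (fun _ => c) 0
  | add {g h : (V → ℝ) → ℝ} {y z : V → ℕ} : g ∈ L → h ∈ L → Prod L g y → Prod L h z →
      Prod L (fun w => g w + h w) (y + z)
  | minL {g h : (V → ℝ) → ℝ} {y : V → ℕ} : g ∈ L → Prod L g y →
      Prod L (fun w => min (g w) (h w)) y
  | minR {g h : (V → ℝ) → ℝ} {y : V → ℕ} : h ∈ L → Prod L h y →
      Prod L (fun w => min (g w) (h w)) y

/-- `y` is the vector of multiplicities of a parse tree with root `g` and a hole at `k` -/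
inductive Ctx (L : Set ((V → ℝ) → ℝ)) : ((V → ℝ) → ℝ) → ((V → ℝ) → ℝ) → (V → ℕ) → Prop
  | refl (g : (V → ℝ) → ℝ) : Ctx L g g 0
  | addL {g h k : (V → ℝ) → ℝ} {y z : V → ℕ} : g ∈ L → h ∈ L → Ctx L g k y → Prod L h z →
      Ctx L (fun w => g w + h w) k (y + z)
  | addR {g h k : (V → ℝ) → ℝ} {y z : V → ℕ} : g ∈ L → h ∈ L → Prod L g y → Ctx L h k z →
      Ctx L (fun w => g w + h w) k (y + z)
  | minL {g h k : (V → ℝ) → ℝ} {y : V → ℕ} : g ∈ L → Ctx L g k y →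
      Ctx L (fun w => min (g w) (h w)) k y
  | minR {g h k : (V → ℝ) → ℝ} {y : V → ℕ} : h ∈ L → Ctx L h k y →
      Ctx L (fun w => min (g w) (h w)) k y

variable {L L' : Set ((V → ℝ) → ℝ)}

theorem Prod.mono (hL : L ⊆ L') {g : (V → ℝ) → ℝ} {y : V → ℕ} (h : Prod L g y) :
    Prod L' g y := by
  induction h with
  | var v => exact .var v
  | const c hc => exact .const c hc
  | add h1 h2 _ _ i1 i2 => exact .add (hL h1) (hL h2) i1 i2
  | minL h1 _ i1 => exact .minL (hL h1) i1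
  | minR h1 _ i1 => exact .minR (hL h1) i1

theorem Ctx.comp {g k : (V → ℝ) → ℝ} {y z : V → ℕ} (h : Ctx L g k y) (hz : Prod L k z) :
    Prod L g (y + z) := by
  induction h with
  | refl g => simpa using hz
  | @addL g h k y y' h1 h2 _ h4 i =>
    have := Prod.add h1 h2 (i hz) h4
    rwa [add_right_comm] at this
  | @addR g h k y y' h1 h2 h3 _ i =>
    have := Prod.add h1 h2 h3 (i hz)
    rwa [← add_assoc] at this
  | minL h1 _ i => exact .minL h1 (i hz)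
  | minR h1 _ i => exact .minR h1 (i hz)

theorem Ctx.comp2 {g k k' : (V → ℝ) → ℝ} {y z : V → ℕ} (h : Ctx L g k y) (hz : Ctx L k k' z) :
    Ctx L g k' (y + z) := by
  induction h with
  | refl g => simpa using hz
  | @addL g h k y y' h1 h2 _ h4 i =>
    have := Ctx.addL h1 h2 (i hz) h4
    rwa [add_right_comm] at this
  | @addR g h k y y' h1 h2 h3 _ i =>
    have := Ctx.addR h1 h2 h3 (i hz)
    rwa [← add_assoc] at this
  | minL h1 _ i => exact .minL h1 (i hz)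
  | minR h1 _ i => exact .minR h1 (i hz)

variable [Fintype V]

/-- number of leaves -/
def nrm (y : V → ℕ) : ℕ := ∑ v, y v

theorem nrm_add (y z : V → ℕ) : nrm (y + z) = nrm y + nrm z := by
  simp [nrm, Finset.sum_add_distrib]

theorem nrm_zero : nrm (0 : V → ℕ) = 0 := by simp [nrm]

theorem nrm_single (v : V) : nrm (Pi.single v 1 : V → ℕ) = 1 := by
  simp [nrm]

theorem nrm_mono {y z : V → ℕ} (h : y ≤ z) : nrm y ≤ nrm z :=
  Finset.sum_le_sum fun v _ => h v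

/-- a parse tree with more than `τ` leaves has a sum node with more than `τ` leaves below it and
at most `τ` leaves below its children -/
theorem split_prod {g : (V → ℝ) → ℝ} {x : V → ℕ} (h : Prod L g x) (hg : g ∈ L) {τ : ℕ}
    (hτ : 1 ≤ τ) (hx : τ < nrm x) :
    ∃ (k h1 h2 : (V → ℝ) → ℝ) (y x1 x2 : V → ℕ), k ∈ L ∧ (k = fun w => h1 w + h2 w) ∧
      h1 ∈ L ∧ h2 ∈ L ∧ Ctx L g k y ∧ Prod L h1 x1 ∧ Prod L h2 x2 ∧ x = y + (x1 + x2) ∧
      nrm x1 ≤ τ ∧ nrm x2 ≤ τ ∧ τ < nrm x1 + nrm x2 := by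
  induction h with
  | var v => rw [nrm_single] at hx; omega
  | const c hc => rw [nrm_zero] at hx; omega
  | @add g h y z h1 h2 h3 h4 i1 i2 =>
    rw [nrm_add] at hx
    by_cases hy : τ < nrm y
    · obtain ⟨k, g1, g2, y', x1, x2, a1, a2, a3, a4, a5, a6, a7, a8, a9, a10, a11⟩ := i1 h1 hy
      refine ⟨k, g1, g2, y' + z, x1, x2, a1, a2, a3, a4, .addL h1 h2 a5 h4, a6, a7, ?_, a9, a10,
        a11⟩
      rw [a8, add_right_comm]
    · by_cases hz : τ < nrm z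
      · obtain ⟨k, g1, g2, y', x1, x2, a1, a2, a3, a4, a5, a6, a7, a8, a9, a10, a11⟩ := i2 h2 hz
        refine ⟨k, g1, g2, y + y', x1, x2, a1, a2, a3, a4, .addR h1 h2 h3 a5, a6, a7, ?_, a9, a10,
          a11⟩
        rw [a8, add_assoc]
      · exact ⟨_, g, h, 0, y, z, hg, rfl, h1, h2, .refl _, h3, h4, by simp, by omega, by omega,
          hx⟩
  | minL h1 h2 i =>
    obtain ⟨k, g1, g2, y', x1, x2, a1, a2, a3, a4, a5, a6, a7, a8, a9, a10, a11⟩ := i h1 hx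
    exact ⟨k, g1, g2, y', x1, x2, a1, a2, a3, a4, .minL h1 a5, a6, a7, a8, a9, a10, a11⟩
  | minR h1 h2 i =>
    obtain ⟨k, g1, g2, y', x1, x2, a1, a2, a3, a4, a5, a6, a7, a8, a9, a10, a11⟩ := i h1 hx
    exact ⟨k, g1, g2, y', x1, x2, a1, a2, a3, a4, .minR h1 a5, a6, a7, a8, a9, a10, a11⟩

/-- a context with more than `τ` leaves can be split at a sum node on the way to the hole -/
theorem split_ctx {g h : (V → ℝ) → ℝ} {x : V → ℕ} (H : Ctx L g h x) (hg : g ∈ L) {τ : ℕ}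
    (hx : τ < nrm x) :
    ∃ (k h1 h2 : (V → ℝ) → ℝ) (y1 y2 z : V → ℕ), k ∈ L ∧ h1 ∈ L ∧ h2 ∈ L ∧
      Ctx L g k y1 ∧ Ctx L h1 h y2 ∧ Prod L h2 z ∧ x = y1 + y2 + z ∧
      nrm y2 ≤ τ ∧ τ < nrm y2 + nrm z ∧
      (∀ y2' z', Ctx L h1 h y2' → Prod L h2 z' → Ctx L k h (y2' + z')) := by
  induction H with
  | refl g => rw [nrm_zero] at hx; omega
  | @addL g g' h y z h1 h2 h3 h4 i =>
    rw [nrm_add] at hx
    by_cases hy : τ < nrm y
    · obtain ⟨k, g1, g2, y1, y2, z', a1, a3, a4, a5, a6, a7, a8, a9, a10, a11⟩ := i h1 hy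
      refine ⟨k, g1, g2, y1 + z, y2, z', a1, a3, a4, .addL h1 h2 a5 h4, a6, a7, ?_, a9, a10, a11⟩
      rw [a8]
      funext v
      simp only [Pi.add_apply]
      ring
    · exact ⟨_, g, g', 0, y, z, hg, h1, h2, .refl _, h3, h4, by simp, by omega, hx,
        fun y2' z' hy2 hz => .addL h1 h2 hy2 hz⟩
  | @addR g g' h y z h1 h2 h3 h4 i =>
    rw [nrm_add] at hx
    by_cases hz : τ < nrm z
    · obtain ⟨k, g1, g2, y1, y2, z', a1, a3, a4, a5, a6, a7, a8, a9, a10, a11⟩ := i h2 hz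
      refine ⟨k, g1, g2, y + y1, y2, z', a1, a3, a4, .addR h1 h2 h3 a5, a6, a7, ?_, a9, a10, a11⟩
      rw [a8]
      funext v
      simp only [Pi.add_apply]
      ring
    · exact ⟨_, g', g, 0, z, y, hg, h2, h1, .refl _, h4, h3, by simp [add_comm], by omega,
        by omega, fun y2' z' hy2 hz => by
          have := Ctx.addR h1 h2 hz hy2
          rwa [add_comm] at this⟩
  | minL h1 h2 i =>
    obtain ⟨k, g1, g2, y1, y2, z', a1, a3, a4, a5, a6, a7, a8, a9, a10, a11⟩ := i h1 hx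
    exact ⟨k, g1, g2, y1, y2, z', a1, a3, a4, .minL h1 a5, a6, a7, a8, a9, a10, a11⟩
  | minR h1 h2 i =>
    obtain ⟨k, g1, g2, y1, y2, z', a1, a3, a4, a5, a6, a7, a8, a9, a10, a11⟩ := i h1 hx
    exact ⟨k, g1, g2, y1, y2, z', a1, a3, a4, .minR h1 a5, a6, a7, a8, a9, a10, a11⟩

/-- the vectors of the set `Z` all cover the edge `e` -/
def Cert (Z : Set (V → ℕ)) (e : V × V) : Prop := ∀ z ∈ Z, z e.1 ≠ 0 ∨ z e.2 ≠ 0

omit [DecidableEq V] [Fintype V] in
theorem cert3 {Z Z1 Z2 Z3 : Set (V → ℕ)} {e : V × V}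
    (h : ∀ a ∈ Z1, ∀ b ∈ Z2, ∀ c ∈ Z3, a + b + c ∈ Z) (hZ : Cert Z e) :
    Cert Z1 e ∨ Cert Z2 e ∨ Cert Z3 e := by
  by_contra hcon
  push Not at hcon
  obtain ⟨h1, h2, h3⟩ := hcon
  unfold Cert at h1 h2 h3
  push Not at h1 h2 h3
  obtain ⟨a, ha, a1, a2⟩ := h1
  obtain ⟨b, hb, b1, b2⟩ := h2
  obtain ⟨c, hc, c1, c2⟩ := h3
  rcases hZ _ (h a ha b hb c hc) with h4 | h4 <;> simp_all

/-- the sets of pieces -/
def Pieces (L : Set ((V → ℝ) → ℝ)) : Set (Set (V → ℕ)) :=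
  {Z | ∃ g ∈ L, Z = {x | Prod L g x}} ∪ {Z | ∃ g ∈ L, ∃ h ∈ L, Z = {x | Ctx L g h x}}

/-- `P` is a decomposition of `x ∈ Z` into small pieces -/
def Dec (L : Set ((V → ℝ) → ℝ)) (θ : ℕ) (Z : Set (V → ℕ)) (x : V → ℕ)
    (P : List (Set (V → ℕ) × (V → ℕ))) : Prop :=
  (∀ p ∈ P, p.1 ∈ Pieces L ∧ p.2 ∈ p.1 ∧ nrm p.2 ≤ θ) ∧ (P.map Prod.snd).sum = x ∧
    ∀ e, Cert Z e → ∃ p ∈ P, Cert p.1 e

theorem Dec.join {θ : ℕ} {Z Z1 Z2 Z3 : Set (V → ℕ)} {x1 x2 x3 : V → ℕ}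
    {P1 P2 P3 : List (Set (V → ℕ) × (V → ℕ))}
    (h : ∀ a ∈ Z1, ∀ b ∈ Z2, ∀ c ∈ Z3, a + b + c ∈ Z) (h1 : Dec L θ Z1 x1 P1)
    (h2 : Dec L θ Z2 x2 P2) (h3 : Dec L θ Z3 x3 P3) :
    Dec L θ Z (x1 + x2 + x3) (P1 ++ P2 ++ P3) := by
  refine ⟨?_, ?_, ?_⟩
  · intro p hp
    simp only [List.mem_append] at hp
    rcases hp with (hp | hp) | hp
    · exact h1.1 p hp
    · exact h2.1 p hp
    · exact h3.1 p hp
  · rw [List.map_append, List.map_append, List.sum_append, List.sum_append, h1.2.1, h2.2.1,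
      h3.2.1]
  · intro e he
    rcases cert3 h he with h4 | h4 | h4
    · obtain ⟨p, hp, hp2⟩ := h1.2.2 e h4
      exact ⟨p, by simp [hp], hp2⟩
    · obtain ⟨p, hp, hp2⟩ := h2.2.2 e h4
      exact ⟨p, by simp [hp], hp2⟩
    · obtain ⟨p, hp, hp2⟩ := h3.2.2 e h4
      exact ⟨p, by simp [hp], hp2⟩

theorem Dec.one {θ : ℕ} {Z : Set (V → ℕ)} {x : V → ℕ} (hZ : Z ∈ Pieces L) (hx : x ∈ Z)
    (hn : nrm x ≤ θ) : Dec L θ Z x [(Z, x)] := by
  refine ⟨?_, by simp, ?_⟩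
  · intro p hp
    rw [List.mem_singleton] at hp
    subst hp
    exact ⟨hZ, hx, hn⟩
  · intro e he
    exact ⟨_, List.mem_singleton_self _, he⟩

/-- balanced decomposition -/
theorem decompose {θ : ℕ} (hθ : 1 ≤ θ) (k : ℕ) :
    (∀ (g h : (V → ℝ) → ℝ) (x : V → ℕ), g ∈ L → h ∈ L → Ctx L g h x → nrm x ≤ θ * 2 ^ k →
      ∃ P, P.length ≤ 5 ^ k ∧ Dec L θ {x | Ctx L g h x} x P) ∧
    (∀ (g : (V → ℝ) → ℝ) (x : V → ℕ), g ∈ L → Prod L g x → nrm x ≤ θ * 2 ^ k →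
      ∃ P, P.length ≤ 5 ^ k ∧ Dec L θ {x | Prod L g x} x P) := by
  induction k with
  | zero =>
    refine ⟨fun g h x hg hh hx hn => ⟨_, ?_, Dec.one (Or.inr ⟨g, hg, h, hh, rfl⟩) hx (by simpa using hn)⟩,
      fun g x hg hx hn => ⟨_, ?_, Dec.one (Or.inl ⟨g, hg, rfl⟩) hx (by simpa using hn)⟩⟩ <;> simp
  | succ k ih =>
    obtain ⟨ihC, ihP⟩ := ih
    have hτ : 1 ≤ θ * 2 ^ k := Nat.one_le_iff_ne_zero.2 (by positivity)
    have h2 : θ * 2 ^ (k + 1) = θ * 2 ^ k + θ * 2 ^ k := by ring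
    have h5 : 5 ^ (k + 1) = 5 * 5 ^ k := by ring
    have key : ∀ (g : (V → ℝ) → ℝ) (x : V → ℕ), g ∈ L → Prod L g x →
        nrm x ≤ θ * 2 ^ (k + 1) → ∃ P, P.length ≤ 3 * 5 ^ k ∧ Dec L θ {x | Prod L g x} x P := by
      intro g x hg hx hn
      by_cases hs : nrm x ≤ θ * 2 ^ k
      · obtain ⟨P, hP, hD⟩ := ihP g x hg hx hs
        exact ⟨P, by omega, hD⟩
      · push Not at hs
        obtain ⟨k', g1, g2, y, x1, x2, a1, a2, a3, a4, a5, a6, a7, a8, a9, a10, a11⟩ :=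
          split_prod hx hg hτ hs
        have hy : nrm y ≤ θ * 2 ^ k := by
          rw [a8, nrm_add, nrm_add] at hn
          omega
        obtain ⟨P1, p1, d1⟩ := ihC g k' y hg a1 a5 hy
        obtain ⟨P2, p2, d2⟩ := ihP g1 x1 a3 a6 a9
        obtain ⟨P3, p3, d3⟩ := ihP g2 x2 a4 a7 a10
        refine ⟨P1 ++ P2 ++ P3, ?_, ?_⟩
        · simp only [List.length_append]
          omega
        · have := Dec.join (Z := {x | Prod L g x}) (fun a ha b hb c hc => ?_) d1 d2 d3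
          · rwa [a8, ← add_assoc]
          · simp only [Set.mem_setOf_eq] at ha hb hc ⊢
            rw [add_assoc]
            refine ha.comp ?_
            rw [a2]
            exact .add a3 a4 hb hc
    refine ⟨?_, fun g x hg hx hn => ?_⟩
    · intro g h x hg hh hx hn
      by_cases hs : nrm x ≤ θ * 2 ^ k
      · obtain ⟨P, hP, hD⟩ := ihC g h x hg hh hx hs
        exact ⟨P, by omega, hD⟩
      · push Not at hs
        obtain ⟨k', g1, g2, y1, y2, z, a1, a3, a4, a5, a6, a7, a8, a9, a10, a11⟩ :=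
          split_ctx hx hg hs
        rw [a8, nrm_add, nrm_add] at hn
        obtain ⟨P1, p1, d1⟩ := ihC g k' y1 hg a1 a5 (by omega)
        obtain ⟨P2, p2, d2⟩ := ihC g1 h y2 a3 hh a6 a9
        obtain ⟨P3, p3, d3⟩ := key g2 z a4 a7 (by omega)
        refine ⟨P1 ++ P2 ++ P3, ?_, ?_⟩
        · simp only [List.length_append]
          omega
        · have := Dec.join (Z := {x | Ctx L g h x}) (fun a ha b hb c hc => ?_) d1 d2 d3
          · rwa [a8]
          · simp only [Set.mem_setOf_eq] at ha hb hc ⊢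
            rw [add_assoc]
            exact ha.comp2 (a11 _ _ hb hc)
    · obtain ⟨P, hP, hD⟩ := key g x hg hx hn
      exact ⟨P, by omega, hD⟩

/-- upper bound for the computed function by a parse tree -/
theorem Prod.le {g : (V → ℝ) → ℝ} {y : V → ℕ} (h : Prod L g y) :
    ∃ c : ℝ, 0 ≤ c ∧ ∀ w, g w ≤ ∑ v, (y v : ℝ) * w v + c := by
  induction h with
  | var v =>
    refine ⟨0, le_rfl, fun w => ?_⟩
    rw [Finset.sum_eq_single v]
    · simp
    · intro b _ hb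
      simp [hb]
    · simp
  | const c hc => exact ⟨c, hc, fun w => by simp⟩
  | @add g h y z _ _ _ _ i1 i2 =>
    obtain ⟨c, hc, h1⟩ := i1
    obtain ⟨d, hd, h2⟩ := i2
    refine ⟨c + d, by positivity, fun w => ?_⟩
    have e : ∑ v, (((y + z) v : ℕ) : ℝ) * w v = ∑ v, (y v : ℝ) * w v + ∑ v, (z v : ℝ) * w v := by
      rw [← Finset.sum_add_distrib]
      refine Finset.sum_congr rfl fun v _ => ?_
      simp only [Pi.add_apply, Nat.cast_add]
      ring
    rw [e]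
    have := h1 w
    have := h2 w
    linarith
  | minL _ _ i =>
    obtain ⟨c, hc, h1⟩ := i
    exact ⟨c, hc, fun w => (min_le_left _ _).trans (h1 w)⟩
  | minR _ _ i =>
    obtain ⟨c, hc, h1⟩ := i
    exact ⟨c, hc, fun w => (min_le_right _ _).trans (h1 w)⟩

/-- a finite set of functions in which a program can be parsed -/
theorem exists_base {l : List ((V → ℝ) → ℝ)} (hl : Prog l) :
    ∃ L : Finset ((V → ℝ) → ℝ), (∀ v : V, (fun w => w v) ∈ L) ∧ (∀ f ∈ l, f ∈ L) ∧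
      L.card ≤ Fintype.card V + 3 * l.length ∧
      ∀ f ∈ L, ∀ w, ∃ y, Prod (L : Set ((V → ℝ) → ℝ)) f y ∧ ∑ v, (y v : ℝ) * w v ≤ f w := by
  classical
  have hvar : ∀ (L : Set ((V → ℝ) → ℝ)) (v : V) (w : V → ℝ),
      ∃ y, Prod L (fun w => w v) y ∧ ∑ v, (y v : ℝ) * w v ≤ w v := by
    intro L v w
    refine ⟨_, .var v, le_of_eq ?_⟩
    rw [Finset.sum_eq_single v]
    · simp
    · intro b _ hb
      simp [hb]
    · simp
  have havail : ∀ (L : Finset ((V → ℝ) → ℝ)) (l : List ((V → ℝ) → ℝ)),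
      (∀ f ∈ l, f ∈ L) → (∀ f ∈ L, ∀ w, ∃ y, Prod (L : Set ((V → ℝ) → ℝ)) f y ∧
        ∑ v, (y v : ℝ) * w v ≤ f w) → ∀ f, Avail l f → ∀ w, ∃ y,
        Prod (L : Set ((V → ℝ) → ℝ)) f y ∧ ∑ v, (y v : ℝ) * w v ≤ f w := by
    intro L l h1 h2 f hf w
    rcases hf with hf | ⟨v, rfl⟩ | ⟨c, hc, rfl⟩
    · exact h2 f (h1 f hf) w
    · exact hvar _ v w
    · exact ⟨0, .const c hc, by simpa using hc⟩
  have step : ∀ (L : Finset ((V → ℝ) → ℝ)) (l : List ((V → ℝ) → ℝ)) (f g h : (V → ℝ) → ℝ),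
      (∀ v : V, (fun w => w v) ∈ L) → (∀ f ∈ l, f ∈ L) →
      L.card ≤ Fintype.card V + 3 * l.length →
      (∀ f ∈ L, ∀ w, ∃ y, Prod (L : Set ((V → ℝ) → ℝ)) f y ∧ ∑ v, (y v : ℝ) * w v ≤ f w) →
      Avail l f → Avail l g →
      (∀ (L' : Set ((V → ℝ) → ℝ)), f ∈ L' → g ∈ L' → ∀ w,
        (∃ y, Prod L' f y ∧ ∑ v, (y v : ℝ) * w v ≤ f w) →
        (∃ y, Prod L' g y ∧ ∑ v, (y v : ℝ) * w v ≤ g w) →
        ∃ y, Prod L' h y ∧ ∑ v, (y v : ℝ) * w v ≤ h w) →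
      ∃ L : Finset ((V → ℝ) → ℝ), (∀ v : V, (fun w => w v) ∈ L) ∧ (∀ f ∈ h :: l, f ∈ L) ∧
      L.card ≤ Fintype.card V + 3 * (h :: l).length ∧
      ∀ f ∈ L, ∀ w, ∃ y, Prod (L : Set ((V → ℝ) → ℝ)) f y ∧ ∑ v, (y v : ℝ) * w v ≤ f w := by
    intro L l f g h a1 a2 a3 a4 hf hg hstep
    refine ⟨insert h (insert f (insert g L)), ?_, ?_, ?_, ?_⟩
    · intro v
      simp [a1 v]
    · intro f' hf'
      rw [List.mem_cons] at hf'
      rcases hf' with rfl | hf'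
      · simp
      · simp [a2 f' hf']
    · have c1 := Finset.card_insert_le h (insert f (insert g L))
      have c2 := Finset.card_insert_le f (insert g L)
      have c3 := Finset.card_insert_le g L
      rw [List.length_cons]
      omega
    · set L' : Finset ((V → ℝ) → ℝ) := insert h (insert f (insert g L)) with hL'
      have hsub : (L : Set ((V → ℝ) → ℝ)) ⊆ (L' : Set ((V → ℝ) → ℝ)) := by
        intro z hz
        simp only [hL', Finset.coe_insert, Set.mem_insert_iff]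
        exact Or.inr (Or.inr (Or.inr hz))
      have up : ∀ f', (∀ w, ∃ y, Prod (L : Set ((V → ℝ) → ℝ)) f' y ∧
          ∑ v, (y v : ℝ) * w v ≤ f' w) → ∀ w, ∃ y, Prod (L' : Set ((V → ℝ) → ℝ)) f' y ∧
          ∑ v, (y v : ℝ) * w v ≤ f' w := by
        intro f' hf' w
        obtain ⟨y, hy, hy2⟩ := hf' w
        exact ⟨y, hy.mono hsub, hy2⟩
      have uf := up f (havail L l a2 a4 f hf)
      have ug := up g (havail L l a2 a4 g hg)
      intro f' hf' w
      rw [hL', Finset.mem_insert, Finset.mem_insert, Finset.mem_insert] at hf'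
      rcases hf' with rfl | rfl | rfl | hf'
      · exact hstep _ (by simp [hL']) (by simp [hL']) w (uf w) (ug w)
      · exact uf w
      · exact ug w
      · exact up f' (a4 f' hf') w
  induction hl with
  | nil =>
    refine ⟨Finset.univ.image (fun (v : V) (w : V → ℝ) => w v), ?_, ?_, ?_, ?_⟩
    · intro v
      simp
    · simp
    · have := Finset.card_image_le (s := (Finset.univ : Finset V))
        (f := fun (v : V) (w : V → ℝ) => w v)
      simpa using this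
    · intro f hf w
      simp only [Finset.mem_image, Finset.mem_univ, true_and] at hf
      obtain ⟨v, rfl⟩ := hf
      exact hvar _ v w
  | @min l f g _ hf hg i =>
    obtain ⟨L, a1, a2, a3, a4⟩ := i
    refine step L l f g _ a1 a2 a3 a4 hf hg ?_
    rintro L' h1 h2 w ⟨y, hy, hy2⟩ ⟨z, hz, hz2⟩
    rcases le_total (f w) (g w) with h | h
    · refine ⟨y, .minL h1 hy, ?_⟩
      rw [min_eq_left h]
      exact hy2
    · refine ⟨z, .minR h2 hz, ?_⟩
      rw [min_eq_right h]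
      exact hz2
  | @add l f g _ hf hg i =>
    obtain ⟨L, a1, a2, a3, a4⟩ := i
    refine step L l f g _ a1 a2 a3 a4 hf hg ?_
    rintro L' h1 h2 w ⟨y, hy, hy2⟩ ⟨z, hz, hz2⟩
    refine ⟨y + z, .add h1 h2 hy hz, ?_⟩
    have e : ∑ v, (((y + z) v : ℕ) : ℝ) * w v = ∑ v, (y v : ℝ) * w v + ∑ v, (z v : ℝ) * w v := by
      rw [← Finset.sum_add_distrib]
      refine Finset.sum_congr rfl fun v _ => ?_
      simp only [Pi.add_apply, Nat.cast_add]
      ring
    rw [e]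
    linarith

end

end Pool.Agent.Y643.TC
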